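import Pool.Agent.U578.UR.Par

/-!
One growth function for almost all members of a family.
-/

set_option autoImplicit false

namespace Pool.Agent.U578.UR

open Filter Topology Metric Set MvPolynomial MeasureTheory
open scoped ENNReal
open Pool.Agent.R871.SG

/-- A measurable set contains a countable union of closed sets whose complement in it is null. -/
theorem closed_part {κ : Type} [Fintype κ] (μ : Measure (κ → ℂ)) [IsFiniteMeasureOnCompacts μ]
    (W : Set (κ → ℂ)) (hW : MeasurableSet W) :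
    ∃ K : ℕ → Set (κ → ℂ), (∀ l, IsClosed (K l)) ∧ (∀ l, K l ⊆ W) ∧
      ∀ᵐ c ∂μ, c ∈ W → ∃ l, c ∈ K l := by
  have h1 : ∀ k m : ℕ, ∃ F : Set (κ → ℂ), F ⊆ W ∩ Metric.closedBall 0 (k : ℝ) ∧ IsClosed F ∧
      μ ((W ∩ Metric.closedBall 0 (k : ℝ)) \ F) < ((m : ℝ≥0∞) + 1)⁻¹ := by
    intro k m
    refine (hW.inter Metric.isClosed_closedBall.measurableSet).exists_isClosed_sdiff_lt ?_ ?_
    · exact ne_top_of_le_ne_top (measure_closedBall_lt_top (x := (0 : κ → ℂ)) (r := (k : ℝ))).ne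
        (measure_mono inter_subset_right)
    · rw [Ne, ENNReal.inv_eq_zero]
      exact ENNReal.add_ne_top.2 ⟨ENNReal.natCast_ne_top m, ENNReal.one_ne_top⟩
  choose F hF1 hF2 hF3 using h1
  refine ⟨fun l => F (Nat.unpair l).1 (Nat.unpair l).2, fun l => hF2 _ _,
    fun l => (hF1 _ _).trans inter_subset_left, ?_⟩
  rw [ae_iff]
  have h2 : {c : κ → ℂ | ¬ (c ∈ W → ∃ l, c ∈ F (Nat.unpair l).1 (Nat.unpair l).2)} ⊆
      ⋃ k : ℕ, ⋂ m : ℕ, (W ∩ Metric.closedBall 0 (k : ℝ)) \ F k m := by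
    intro c hc
    have hc' : c ∈ W ∧ ¬ ∃ l, c ∈ F (Nat.unpair l).1 (Nat.unpair l).2 := by
      simpa only [mem_ofPred_eq, Classical.not_imp] using hc
    obtain ⟨k, hk⟩ := exists_nat_ge (dist c 0)
    refine mem_iUnion.2 ⟨k, mem_iInter.2 fun m => ⟨⟨hc'.1, hk⟩, fun hcF => hc'.2 ?_⟩⟩
    exact ⟨Nat.pair k m, by rw [Nat.unpair_pair]; exact hcF⟩
  refine measure_mono_null h2 (measure_iUnion_null fun k => ?_)
  have h3 : ∀ m : ℕ, μ (⋂ m : ℕ, (W ∩ Metric.closedBall 0 (k : ℝ)) \ F k m) ≤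
      ((m : ℝ≥0∞) + 1)⁻¹ := fun m =>
    (measure_mono (iInter_subset _ m)).trans (hF3 k m).le
  refine le_antisymm (ENNReal.le_of_forall_pos_le_add fun ε hε _ => ?_) bot_le
  obtain ⟨m, hm⟩ := ENNReal.exists_inv_nat_lt (ENNReal.coe_pos.2 hε).ne'
  rw [zero_add]
  refine (h3 m).trans ((ENNReal.inv_le_inv.2 ?_).trans hm.le)
  exact le_self_add

variable {κ σ : Type} [Fintype κ] [Fintype σ] {ι : Type} {p : ℕ}

/-- Polynomial maps of degree at most `D` in each variable, with the coefficients `c`. -/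
noncomputable def fam (D : ℕ) (c : (Fin p → Fin (D + 1)) → σ → ℂ) (j : σ) :
    MvPolynomial (Fin p) ℂ :=
  ∑ a : Fin p → Fin (D + 1), monomial (Finsupp.equivFunOnFinite.symm fun i => (a i : ℕ)) (c a j)

theorem fam_surj (P : σ → MvPolynomial (Fin p) ℂ) :
    ∃ (D : ℕ) (c : (Fin p → Fin (D + 1)) → σ → ℂ), fam D c = P := by
  classical
  let D := ∑ j, (P j).totalDegree
  refine ⟨D, fun a j => coeff (Finsupp.equivFunOnFinite.symm fun i => (a i : ℕ)) (P j), ?_⟩
  funext j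
  ext d
  rw [fam, coeff_sum]
  simp only [coeff_monomial]
  by_cases hd : ∀ i, d i ≤ D
  · let a : Fin p → Fin (D + 1) := fun i => ⟨d i, Nat.lt_succ_of_le (hd i)⟩
    have ha : (Finsupp.equivFunOnFinite.symm fun i => (a i : ℕ)) = d := by
      ext i
      simp [a]
    rw [Finset.sum_eq_single a]
    · rw [if_pos ha, ha]
    · intro b _ hb
      rw [if_neg]
      intro h
      apply hb
      funext i
      apply Fin.ext
      have h1 := DFunLike.congr_fun (h.trans ha.symm) i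
      simpa using h1
    · intro h
      exact absurd (Finset.mem_univ a) h
  · have h0 : coeff d (P j) = 0 := by
      by_contra hne
      apply hd
      intro i
      have h1 := le_totalDegree (mem_support_iff.2 hne)
      have h2 : d i ≤ d.sum fun _ e => e := by
        by_cases hi : i ∈ d.support
        · exact Finset.single_le_sum (f := fun i => d i) (fun _ _ => Nat.zero_le _) hi
        · rw [Finsupp.notMem_support_iff.1 hi]
          exact Nat.zero_le _
      exact h2.trans (h1.trans (Finset.single_le_sum (f := fun j => (P j).totalDegree)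
        (fun _ _ => Nat.zero_le _) (Finset.mem_univ j)))
    rw [h0]
    refine Finset.sum_eq_zero fun a _ => ?_
    rw [if_neg]
    intro h
    apply hd
    intro i
    have h1 := DFunLike.congr_fun h i
    have h2 := (a i).2
    simp at h1
    omega

theorem mv_fam (D : ℕ) (c : (Fin p → Fin (D + 1)) → σ → ℂ) (z : Fin p → ℂ) :
    mv (fam D c) z = ∑ a : Fin p → Fin (D + 1), (∏ i, z i ^ (a i : ℕ)) • c a := by
  funext j
  simp only [mv, fam, map_sum, eval_monomial, Finset.sum_apply, Pi.smul_apply, smul_eq_mul]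
  refine Finset.sum_congr rfl fun a _ => ?_
  rw [mul_comm]
  congr 1
  rw [Finsupp.prod_fintype _ _ (by simp)]
  simp

theorem mv_fam_cont (D : ℕ) (z : Fin p → ℂ) :
    Continuous fun c : (Fin p → Fin (D + 1)) → σ → ℂ => mv (fam D c) z := by
  simp only [mv_fam]
  refine continuous_finsetSum _ fun a _ => continuous_pi fun j => ?_
  have h : Continuous fun c : (Fin p → Fin (D + 1)) → σ → ℂ => c a j :=
    (continuous_apply j).comp (continuous_apply a)
  exact continuous_const.mul h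

/-- The property `O` of maps is open for the uniform convergence on compact sets. -/
def OpenCond (O : ((Fin p → ℂ) → σ → ℂ) → Prop) : Prop :=
  ∀ f, AnalyticOnNhd ℂ f univ → O f → ∃ ρ η : ℝ, 0 ≤ ρ ∧ 0 < η ∧
    ∀ g, AnalyticOnNhd ℂ g univ → (∀ z, ‖z‖ ≤ ρ → ‖g z - f z‖ ≤ η) → O g

theorem open_fam {O : ((Fin p → ℂ) → σ → ℂ) → Prop} (hO : OpenCond O) (D : ℕ) :
    IsOpen {c : (Fin p → Fin (D + 1)) → σ → ℂ | O (mv (fam D c))} := by
  rw [isOpen_iff_mem_nhds]
  intro c0 hc0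
  obtain ⟨ρ, η, hρ, hη, h⟩ := hO _ (mv_analytic _) hc0
  let B : ((Fin p → Fin (D + 1)) → σ → ℂ) → ℝ := fun c =>
    ∑ a : Fin p → Fin (D + 1), (∏ i, ρ ^ (a i : ℕ)) * ‖c a - c0 a‖
  have hB : Continuous B := continuous_finsetSum _ fun a _ =>
    continuous_const.mul ((continuous_apply a).sub continuous_const).norm
  have hB0 : B c0 = 0 := by simp [B]
  have h1 : ∀ᶠ c in 𝓝 c0, B c < η := by
    have h2 : Tendsto B (𝓝 c0) (𝓝 0) := by
      rw [← hB0]
      exact hB.tendsto c0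
    exact h2.eventually_lt_const hη
  filter_upwards [h1] with c hc
  refine h _ (mv_analytic _) fun z hz => ?_
  rw [mv_fam, mv_fam, ← Finset.sum_sub_distrib]
  refine (norm_sum_le _ _).trans ((Finset.sum_le_sum fun a _ => ?_).trans hc.le)
  rw [← smul_sub, norm_smul, norm_prod]
  refine mul_le_mul_of_nonneg_right ?_ (norm_nonneg _)
  refine Finset.prod_le_prod (fun i _ => norm_nonneg _) fun i _ => ?_
  rw [norm_pow]
  exact pow_le_pow_left₀ (norm_nonneg _) ((norm_le_pi_norm z i).trans hz) _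

/-- There is a polynomial map to the member with the parameters `s`, with the conditions `K` and
`O`. -/
def HasPol (F : ι → MvPolynomial (κ ⊕ σ) ℂ) (K : (Fin p → ℂ) → Set (κ ⊕ σ → ℂ))
    (O : ((Fin p → ℂ) → σ → ℂ) → Prop) (s : κ → ℂ) : Prop :=
  ∃ P : σ → MvPolynomial (Fin p) ℂ, (∀ z i, eval (Sum.elim s (mv P z)) (F i) = 0) ∧
    (∀ z, ‖z‖ ≤ 2 → Sum.elim s (mv P z) ∈ K z) ∧ O (mv P)

/-- There is a holomorphic map of growth at most `φ` to the member with the parameters `s`, with the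
conditions `K` and `O`. -/
def HasHol (φ : ℝ → ℝ) (F : ι → MvPolynomial (κ ⊕ σ) ℂ) (K : (Fin p → ℂ) → Set (κ ⊕ σ → ℂ))
    (O : ((Fin p → ℂ) → σ → ℂ) → Prop) (s : κ → ℂ) : Prop :=
  ∃ f : (Fin p → ℂ) → σ → ℂ, AnalyticOnNhd ℂ f univ ∧
    (∀ z i, eval (Sum.elim s (f z)) (F i) = 0) ∧
    (∀ z, ‖z‖ ≤ 2 → Sum.elim s (f z) ∈ K z) ∧ SlowM φ f ∧ O f

theorem hasPol_measurable (F : ι → MvPolynomial (κ ⊕ σ) ℂ)
    (K : (Fin p → ℂ) → Set (κ ⊕ σ → ℂ)) (hK : ∀ z, IsClosed (K z))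
    {O : ((Fin p → ℂ) → σ → ℂ) → Prop} (hO : OpenCond O) :
    MeasurableSet {s | HasPol F K O s} := by
  -- the pairs of parameters and coefficients
  let T : ℕ → Set (κ → ℂ) := fun D => {s | ∃ c : (Fin p → Fin (D + 1)) → σ → ℂ,
    (∀ z i, eval (Sum.elim s (mv (fam D c) z)) (F i) = 0) ∧
    (∀ z, ‖z‖ ≤ 2 → Sum.elim s (mv (fam D c) z) ∈ K z) ∧ O (mv (fam D c))}
  have hT : {s | HasPol F K O s} = ⋃ D, T D := by
    ext s
    simp only [mem_ofPred_eq, mem_iUnion, T]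
    constructor
    · rintro ⟨P, h1, h2, h3⟩
      obtain ⟨D, c, rfl⟩ := fam_surj P
      exact ⟨D, c, h1, h2, h3⟩
    · rintro ⟨D, c, h1, h2, h3⟩
      exact ⟨fam D c, h1, h2, h3⟩
  rw [hT]
  refine MeasurableSet.iUnion fun D => ?_
  let E := (Fin p → Fin (D + 1)) → σ → ℂ
  have hcont : ∀ z : Fin p → ℂ, Continuous fun x : (κ → ℂ) × E =>
      (Sum.elim x.1 (mv (fam D x.2) z) : κ ⊕ σ → ℂ) := by
    intro z
    refine continuous_pi ?_
    rintro (k | j)
    · exact (continuous_apply k).comp continuous_fst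
    · exact (continuous_apply j).comp ((mv_fam_cont D z).comp continuous_snd)
  let A : Set ((κ → ℂ) × E) := {x | (∀ z i, eval (Sum.elim x.1 (mv (fam D x.2) z)) (F i) = 0) ∧
    (∀ z, ‖z‖ ≤ 2 → Sum.elim x.1 (mv (fam D x.2) z) ∈ K z)}
  have hA : IsClosed A := by
    have : A = (⋂ (z : Fin p → ℂ) (i : ι), {x | eval (Sum.elim x.1 (mv (fam D x.2) z)) (F i) = 0}) ∩
        ⋂ (z : Fin p → ℂ) (_ : ‖z‖ ≤ 2), {x | Sum.elim x.1 (mv (fam D x.2) z) ∈ K z} := by
      ext x
      simp [A]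
    rw [this]
    refine (isClosed_iInter fun z => isClosed_iInter fun i => isClosed_eq
      ((cont_ev (F i)).comp (hcont z)) continuous_const).inter ?_
    exact isClosed_iInter fun z => isClosed_iInter fun _ => (hK z).preimage (hcont z)
  let U : Set ((κ → ℂ) × E) := {x | O (mv (fam D x.2))}
  have hU : IsOpen U := (open_fam hO D).preimage continuous_snd
  obtain ⟨G, hG1, -, hG3, -⟩ := hU.exists_iUnion_isClosed
  have h1 : T D = ⋃ n, Prod.fst '' (A ∩ G n) := by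
    rw [← image_iUnion, ← inter_iUnion, hG3]
    ext s
    constructor
    · rintro ⟨c, h1, h2, h3⟩
      exact ⟨(s, c), ⟨⟨h1, h2⟩, h3⟩, rfl⟩
    · rintro ⟨⟨s', c⟩, ⟨⟨h1, h2⟩, h3⟩, rfl⟩
      exact ⟨c, h1, h2, h3⟩
  rw [h1]
  refine MeasurableSet.iUnion fun n => ?_
  have h2 : IsSigmaCompact (Prod.fst '' (A ∩ G n)) :=
    (isSigmaCompact_univ.of_isClosed_subset (hA.inter (hG1 n)) (subset_univ _)).image
      continuous_fst
  obtain ⟨C, hC, hC2⟩ := h2
  rw [← hC2]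
  exact MeasurableSet.iUnion fun k => (hC k).isClosed.measurableSet

/-- **One growth function for almost all members.** -/
theorem ae_open (μ : Measure (κ → ℂ)) [IsFiniteMeasureOnCompacts μ]
    (F : ι → MvPolynomial (κ ⊕ σ) ℂ)
    (K : (Fin p → ℂ) → Set (κ ⊕ σ → ℂ)) (hK : ∀ z, IsClosed (K z))
    {O : ((Fin p → ℂ) → σ → ℂ) → Prop} (hO : OpenCond O) : ∃ φ : ℝ → ℝ, Grows φ ∧
      ∀ ψ : ℝ → ℝ, Grows ψ → (∃ R : ℝ, ∀ r, R ≤ r → ψ r ≤ φ r) →
        ∀ᵐ s ∂μ, (HasPol F K O s ↔ HasHol ψ F K O s) := by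
  obtain ⟨L, hL1, hL2, hL3⟩ := closed_part μ _ (hasPol_measurable F K hK hO).compl
  have h1 : ∀ l, ∃ φ : ℝ → ℝ, Grows φ ∧ ∀ s ∈ L l, ¬ HasHol φ F K O s := by
    intro l
    obtain ⟨φ, hφ, h⟩ := approx_par p F (fun z => K z ∩ {w | (fun k => w (Sum.inl k)) ∈ L l})
      (fun z => (hK z).inter ((hL1 l).preimage (continuous_pi fun k => continuous_apply _)))
    refine ⟨φ, hφ, fun s hs hh => ?_⟩
    obtain ⟨f, hf, hfF, hfK, hsl, hfO⟩ := hh
    obtain ⟨ρ, η, hρ, hη, hop⟩ := hO f hf hfO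
    obtain ⟨s', P, h3, h4, h5⟩ := h s f hf hfF (fun z hz => ⟨hfK z hz, hs⟩) hsl ρ η hρ hη
    have h6 : s' ∈ L l := (h4 0 (by rw [norm_zero]; norm_num)).2
    exact hL2 l h6 ⟨P, h3, fun z hz => (h4 z hz).1, hop _ (mv_analytic P) h5⟩
  choose φ hφ hno using h1
  obtain ⟨φ', hφ', hle⟩ := grows_diag φ hφ
  refine ⟨φ', hφ', fun ψ hψ hψφ => ?_⟩
  filter_upwards [hL3] with s hs
  constructor
  · rintro ⟨P, h1, h2, h3⟩
    exact ⟨mv P, mv_analytic P, h1, h2, mv_slow hψ P, h3⟩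
  · intro hh
    by_contra hcon
    obtain ⟨l, hl⟩ := hs hcon
    obtain ⟨f, hf, hfF, hfK, hsl, hfO⟩ := hh
    exact hno l s hl ⟨f, hf, hfF, hfK, slowM_mono (hle l) (slowM_mono hψφ hsl), hfO⟩

/-- The rank condition is open. -/
theorem open_rk (e : ℕ) : OpenCond (p := p) (σ := σ) fun f => ∃ z, Rk f z e := by
  rintro f hf ⟨z, v, hv⟩
  have ho : IsOpen {g : Fin (e + 1) → σ → ℂ | LinearIndependent ℂ g} :=
    isOpen_setOfPred_linearIndependent
  obtain ⟨ε, hε, hball⟩ := Metric.isOpen_iff.1 ho _ hv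
  set M : ℝ := ∑ i, ‖v i‖ + 1 with hM
  have hM1 : 1 ≤ M := by
    have : 0 ≤ ∑ i, ‖v i‖ := Finset.sum_nonneg fun i _ => norm_nonneg _
    linarith
  have hMi : ∀ i, ‖v i‖ + 1 ≤ M := fun i => by
    have := Finset.single_le_sum (f := fun i => ‖v i‖) (fun i _ => norm_nonneg _)
      (Finset.mem_univ i)
    linarith
  refine ⟨‖z‖ + 1, ε / 2 / M, by positivity, by positivity, fun g hg hPc => ⟨z, v, hball ?_⟩⟩
  have hu : AnalyticOnNhd ℂ (fun y => g y - f y) univ := fun y hy =>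
    (hg y hy).fun_sub (hf y hy)
  have hd : ∀ i, fderiv ℂ (fun y => g y - f y) z (v i) =
      fderiv ℂ g z (v i) - fderiv ℂ f z (v i) := by
    intro i
    rw [fderiv_fun_sub (hg z (mem_univ _)).differentiableAt
      (hf z (mem_univ _)).differentiableAt]
    rfl
  rw [mem_ball, dist_eq_norm]
  refine lt_of_le_of_lt ((pi_norm_le_iff_of_nonneg (by positivity)).2 fun i => ?_)
    (half_lt_self hε)
  refine Fin.cases ?_ (fun j => ?_) i
  · simp only [Pi.sub_apply, Fin.cons_zero]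
    refine (hPc z (by linarith)).trans ?_
    exact div_le_self (by positivity) hM1
  · simp only [Pi.sub_apply, Fin.cons_succ]
    rw [← hd]
    refine (fderiv_small hu (fun y hy => hPc y hy) (v j)).trans ?_
    calc ε / 2 / M * (‖v j‖ + 1) ≤ ε / 2 / M * M := by gcongr; exact hMi j
      _ = ε / 2 := by field_simp

/-- Not being zero at two points is an open condition. -/
theorem open_two (a b : Fin p → ℂ) : OpenCond (p := p) (σ := σ) fun f => f a ≠ 0 ∧ f b ≠ 0 := by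
  rintro f hf ⟨ha, hb⟩
  have ha' := norm_pos_iff.2 ha
  have hb' := norm_pos_iff.2 hb
  refine ⟨max ‖a‖ ‖b‖, min ‖f a‖ ‖f b‖ / 2, by positivity, by positivity, fun g hg h => ⟨?_, ?_⟩⟩
  · intro h0
    have h1 := h a (le_max_left _ _)
    rw [h0, zero_sub, norm_neg] at h1
    have h2 := min_le_left ‖f a‖ ‖f b‖
    linarith
  · intro h0
    have h1 := h b (le_max_right _ _)
    rw [h0, zero_sub, norm_neg] at h1
    have h2 := min_le_right ‖f a‖ ‖f b‖
    linarith

end Pool.Agent.U578.UR
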