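import Pool.Agent.U578.UR.Main

/-!
One growth function for countably many varieties and pairs of points.
-/

set_option autoImplicit false

namespace Pool.Agent.U578.UR

open Filter Topology Metric Set MvPolynomial Cardinal
open Pool.Agent.R871.SG (mv Rk mv_analytic mv_slow Grows SlowM Slow rank_iff)

theorem entire_mono {n : ℕ} {I : Ideal (MvPolynomial (Fin (n + 1)) ℂ)} {x y : Fin (n + 1) → ℂ}
    {φ ψ : ℝ → ℝ} (h : ∃ R : ℝ, ∀ r, R ≤ r → ψ r ≤ φ r) (hj : JoinedByEntireCurve ψ I x y) :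
    JoinedByEntireCurve φ I x y := by
  obtain ⟨f, hf, hI, hs, hx, hy⟩ := hj
  refine ⟨f, hf, hI, fun R' => ?_, hx, hy⟩
  obtain ⟨R, hR⟩ := h
  obtain ⟨r, hr, hz⟩ := hs (max R R')
  exact ⟨r, (le_max_right _ _).trans_lt hr, fun z hz2 =>
    (hz z hz2).trans (hR r ((le_max_left _ _).trans hr.le))⟩

theorem joined_seq (m : ℕ → ℕ) (I : ∀ j, Ideal (MvPolynomial (Fin (m j + 1)) ℂ))
    (x y : ∀ j, Fin (m j + 1) → ℂ) (hx : ∀ j, x j ≠ 0) (hy : ∀ j, y j ≠ 0) :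
    ∃ φ : ℝ → ℝ, Grows φ ∧ ∀ j, (JoinedByRationalCurve (I j) (x j) (y j) ↔
      JoinedByEntireCurve φ (I j) (x j) (y j)) := by
  choose φ hφ h using fun j => rational_of_entire (I j) (x j) (y j) (hx j) (hy j)
  obtain ⟨ψ, hψ, hle⟩ := grows_diag φ hφ
  exact ⟨ψ, hψ, fun j => ⟨fun hj => entire_of_rational hj hψ,
    fun hj => h j (entire_mono (hle j) hj)⟩⟩

theorem unirational_seq (m q : ℕ → ℕ) (I : ∀ j, Ideal (MvPolynomial (Fin (m j + 1)) ℂ))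
    (hI : ∀ j, IsVariety (I j) (q j)) : ∃ φ : ℝ → ℝ, Grows φ ∧ ∀ j,
      (Unirational (I j) ↔ SlowMap φ (I j) (q j) (q j)) ∧
      ∀ e, (ContainsUnirational (I j) e ↔ SlowMap φ (I j) e e) ∧
        (ContainsUnirational (I j) e ↔ ∃ p, SlowMap φ (I j) p e) := by
  obtain ⟨φ, hφ, h⟩ := slow_iff m I
  exact ⟨φ, hφ, fun j => ⟨(unirational_iff (hI j)).trans (h j (q j)).1, fun e => h j e⟩⟩

end Pool.Agent.U578.UR
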