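import Pool.Agent.U578.UR.Ae
import Pool.Agent.U578.UR.Seq

/-!
Families of projective varieties: one growth function for almost all members of countably many
families, and for almost all pairs of points.
-/

set_option autoImplicit false

namespace Pool.Agent.U578.UR

open Filter Topology Metric Set MvPolynomial Cardinal MeasureTheory
open Pool.Agent.R871.SG (mv Rk mv_analytic mv_slow Grows SlowM Slow)

variable {n m : ℕ} {ι : Type}

/-- The polynomial in the coordinates with the parameters `s`. -/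
noncomputable def spec (s : Fin m → ℂ) (G : MvPolynomial (Fin m ⊕ Fin (n + 1)) ℂ) :
    MvPolynomial (Fin (n + 1)) ℂ :=
  aeval (Sum.elim (fun k => C (s k)) X) G

/-- The ideal generated by the equations of the member with the parameters `s`. -/
noncomputable def famIdeal (F : ι → MvPolynomial (Fin m ⊕ Fin (n + 1)) ℂ) (s : Fin m → ℂ) :
    Ideal (MvPolynomial (Fin (n + 1)) ℂ) :=
  Ideal.span (Set.range fun i => spec s (F i))

theorem eval_spec (s : Fin m → ℂ) (G : MvPolynomial (Fin m ⊕ Fin (n + 1)) ℂ)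
    (x : Fin (n + 1) → ℂ) : eval x (spec s G) = eval (Sum.elim s x) G := by
  rw [spec]
  induction G using MvPolynomial.induction_on with
  | C a => simp
  | add f g hf hg => simp only [map_add, hf, hg]
  | mul_X f k hf =>
    rw [map_mul, map_mul, hf, aeval_X, map_mul, eval_X]
    rcases k with k | k
    · simp
    · simp

theorem mem_cone_fam (F : ι → MvPolynomial (Fin m ⊕ Fin (n + 1)) ℂ) (s : Fin m → ℂ)
    (x : Fin (n + 1) → ℂ) : x ∈ Cone (famIdeal F s) ↔ ∀ i, eval (Sum.elim s x) (F i) = 0 := by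
  constructor
  · intro h i
    rw [← eval_spec]
    exact h _ (Ideal.subset_span ⟨i, rfl⟩)
  · intro h G hG
    have h1 : famIdeal F s ≤ RingHom.ker (eval x) := by
      refine Ideal.span_le.2 ?_
      rintro _ ⟨i, rfl⟩
      exact RingHom.mem_ker.2 (by rw [eval_spec]; exact h i)
    exact RingHom.mem_ker.1 (h1 hG)

theorem slow_of_contains {I : Ideal (MvPolynomial (Fin (n + 1)) ℂ)} {e : ℕ}
    (h : ContainsUnirational I e) {ψ : ℝ → ℝ} (hψ : Grows ψ) : SlowMap ψ I e e := by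
  obtain ⟨p, P, hP, htr⟩ := h
  obtain ⟨z, hz⟩ := rk_of_trdeg htr
  obtain ⟨Q, hQ, hrk⟩ := restrict_rk hz
  refine ⟨mv Q, mv_analytic Q, fun u => ?_, mv_slow hψ Q, 0, hrk⟩
  obtain ⟨y, hy⟩ := hQ u
  rw [hy]
  exact (cone_iff _ P).1 hP y

theorem contains_cone {I J : Ideal (MvPolynomial (Fin (n + 1)) ℂ)} (h : Cone I = Cone J) (e : ℕ) :
    ContainsUnirational I e ↔ ContainsUnirational J e := by
  simp only [ContainsUnirational, cone_iff, h]

/-- The statement for one family and fixed `p`, `e`. -/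
theorem member_one (F : ι → MvPolynomial (Fin m ⊕ Fin (n + 1)) ℂ) (μ : Measure (Fin m → ℂ))
    [IsFiniteMeasureOnCompacts μ] (p e : ℕ) : ∃ φ : ℝ → ℝ, Grows φ ∧
      ∀ ψ : ℝ → ℝ, Grows ψ → (∃ R : ℝ, ∀ r, R ≤ r → ψ r ≤ φ r) →
        ∀ᵐ s ∂μ, SlowMap ψ (famIdeal F s) p e → ContainsUnirational (famIdeal F s) e := by
  obtain ⟨φ, hφ, h⟩ := ae_open μ F (fun _ : Fin p → ℂ => univ) (fun _ => isClosed_univ)
    (open_rk (p := p) (σ := Fin (n + 1)) e)
  refine ⟨φ, hφ, fun ψ hψ hle => ?_⟩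
  filter_upwards [h ψ hψ hle] with s hs
  rintro ⟨f, hf, hfI, hsl, hrk⟩
  obtain ⟨P, hP, -, z, hz⟩ := hs.2 ⟨f, hf, fun z => (mem_cone_fam F s _).1 (hfI z),
    fun _ _ => mem_univ _, hsl, hrk⟩
  exact ⟨p, P, (cone_iff _ P).2 fun z => (mem_cone_fam F s _).2 (hP z), trdeg_of_rk hz⟩

/-- The parameters `s` and the two points `x`, `y` in the vector `t`. -/
def parS (t : Fin m ⊕ (Fin (n + 1) ⊕ Fin (n + 1)) → ℂ) : Fin m → ℂ := fun k => t (Sum.inl k)

/-- The first point. -/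
def parX (t : Fin m ⊕ (Fin (n + 1) ⊕ Fin (n + 1)) → ℂ) : Fin (n + 1) → ℂ :=
  fun i => t (Sum.inr (Sum.inl i))

/-- The second point. -/
def parY (t : Fin m ⊕ (Fin (n + 1) ⊕ Fin (n + 1)) → ℂ) : Fin (n + 1) → ℂ :=
  fun i => t (Sum.inr (Sum.inr i))

theorem prop_of_minors {x w : Fin (n + 1) → ℂ} (hx : x ≠ 0) (hw : w ≠ 0)
    (h : ∀ i j, w i * x j = w j * x i) : ∃ a : ℂ, a ≠ 0 ∧ w = a • x := by
  obtain ⟨j, hj⟩ : ∃ j, x j ≠ 0 := by
    by_contra hcon
    push Not at hcon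
    exact hx (funext hcon)
  have hwx : w = (w j / x j) • x := by
    funext i
    have h1 := h i j
    simp only [Pi.smul_apply, smul_eq_mul]
    field_simp
    linear_combination h1
  refine ⟨w j / x j, fun h0 => hw ?_, hwx⟩
  rw [hwx, h0, zero_smul]

theorem pairs_one (F : ι → MvPolynomial (Fin m ⊕ Fin (n + 1)) ℂ)
    (ν : Measure (Fin m ⊕ (Fin (n + 1) ⊕ Fin (n + 1)) → ℂ)) [IsFiniteMeasureOnCompacts ν] :
    ∃ φ : ℝ → ℝ, Grows φ ∧
      ∀ ψ : ℝ → ℝ, Grows ψ → (∃ R : ℝ, ∀ r, R ≤ r → ψ r ≤ φ r) →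
        ∀ᵐ t ∂ν, parX t ≠ 0 → parY t ≠ 0 →
          (JoinedByRationalCurve (famIdeal F (parS t)) (parX t) (parY t) ↔
            JoinedByEntireCurve ψ (famIdeal F (parS t)) (parX t) (parY t)) := by
  let κ := Fin m ⊕ (Fin (n + 1) ⊕ Fin (n + 1))
  let F' : ι → MvPolynomial (κ ⊕ Fin (n + 1)) ℂ := fun i =>
    rename (Sum.map Sum.inl id) (F i)
  have hF' : ∀ (t : κ → ℂ) (x : Fin (n + 1) → ℂ) i,
      eval (Sum.elim t x) (F' i) = eval (Sum.elim (parS t) x) (F i) := by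
    intro t x i
    simp only [F', eval_rename]
    congr 2
    funext k
    rcases k with k | k <;> rfl
  let K : (Fin 1 → ℂ) → Set (κ ⊕ Fin (n + 1) → ℂ) := fun z => {w |
    (z = (fun _ => 0) → ∀ i j, w (Sum.inr i) * w (Sum.inl (Sum.inr (Sum.inl j))) =
      w (Sum.inr j) * w (Sum.inl (Sum.inr (Sum.inl i)))) ∧
    (z = (fun _ => 1) → ∀ i j, w (Sum.inr i) * w (Sum.inl (Sum.inr (Sum.inr j))) =
      w (Sum.inr j) * w (Sum.inl (Sum.inr (Sum.inr i))))}
  have hK : ∀ z, IsClosed (K z) := by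
    intro z
    simp only [K, setOf_and, setOf_forall]
    refine IsClosed.inter ?_ ?_
    · exact isClosed_iInter fun _ => isClosed_iInter fun i => isClosed_iInter fun j =>
        isClosed_eq (by fun_prop) (by fun_prop)
    · exact isClosed_iInter fun _ => isClosed_iInter fun i => isClosed_iInter fun j =>
        isClosed_eq (by fun_prop) (by fun_prop)
  obtain ⟨φ, hφ, h⟩ := ae_open ν F' K hK
    (open_two (p := 1) (σ := Fin (n + 1)) (fun _ => 0) (fun _ => 1))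
  refine ⟨φ, hφ, fun ψ hψ hle => ?_⟩
  filter_upwards [h ψ hψ hle] with t ht hx hy
  refine ⟨fun hj => entire_of_rational hj hψ, ?_⟩
  rintro ⟨f, hf, hfI, hs, ⟨a, ha, hfa⟩, b, hb, hfb⟩
  let g : (Fin 1 → ℂ) → Fin (n + 1) → ℂ := fun z => f (z 0)
  have hg : AnalyticOnNhd ℂ g univ := by
    intro z _
    have h1 : AnalyticAt ℂ (fun z : Fin 1 → ℂ => z 0) z :=
      (ContinuousLinearMap.proj (R := ℂ) (φ := fun _ : Fin 1 => ℂ) 0).analyticAt z
    exact AnalyticAt.comp (g := f) (f := fun z : Fin 1 → ℂ => z 0) (hf.analyticAt (z 0)) h1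
  have hgs : SlowM ψ g := by
    intro R
    obtain ⟨r, hr, hz⟩ := hs R
    exact ⟨r, hr, fun z hz2 => hz (z 0) ((norm_le_pi_norm z 0).trans hz2)⟩
  have hg0 : g (fun _ => 0) = a • parX t := hfa
  have hg1 : g (fun _ => 1) = b • parY t := hfb
  obtain ⟨P, hP, hPK, hP0, hP1⟩ := ht.2 ⟨g, hg, fun z i => by
      rw [hF']
      exact (mem_cone_fam F _ _).1 (hfI (z 0)) i, fun z _ => ⟨fun hz i j => by
        subst hz
        simp only [Sum.elim_inr, Sum.elim_inl, hg0, Pi.smul_apply, smul_eq_mul, parX]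
        ring, fun hz i j => by
        subst hz
        simp only [Sum.elim_inr, Sum.elim_inl, hg1, Pi.smul_apply, smul_eq_mul, parY]
        ring⟩, hgs, by
      rw [hg0]
      exact smul_ne_zero ha hx, by
      rw [hg1]
      exact smul_ne_zero hb hy⟩
  have hev : ∀ t : ℂ, (fun i => (aeval (fun _ => (Polynomial.X : Polynomial ℂ)) (P i)).eval t) =
      mv P (fun _ => t) := fun t => funext fun i => eval_ofMv (P i) t
  refine ⟨fun i => aeval (fun _ => (Polynomial.X : Polynomial ℂ)) (P i), fun u => ?_, ?_, ?_⟩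
  · rw [hev]
    refine (mem_cone_fam F _ _).2 fun i => ?_
    rw [← hF']
    exact hP _ i
  · rw [hev]
    refine prop_of_minors hx hP0 fun i j => ?_
    have h1 := (hPK (fun _ => 0) (by rw [pi_norm_const]; norm_num)).1 rfl i j
    exact h1
  · rw [hev]
    refine prop_of_minors hy hP1 fun i j => ?_
    have h1 := (hPK (fun _ => 1) (by rw [pi_norm_const]; norm_num)).2 rfl i j
    exact h1

/-- **One growth function for almost all members of countably many families.** -/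
theorem members_ae (m n : ℕ → ℕ) (ι : ℕ → Type)
    (F : ∀ j, ι j → MvPolynomial (Fin (m j) ⊕ Fin (n j + 1)) ℂ)
    (μ : ∀ j, Measure (Fin (m j) → ℂ)) [∀ j, IsFiniteMeasureOnCompacts (μ j)]
    (ν : ∀ j, Measure (Fin (m j) ⊕ (Fin (n j + 1) ⊕ Fin (n j + 1)) → ℂ))
    [∀ j, IsFiniteMeasureOnCompacts (ν j)] : ∃ φ : ℝ → ℝ, Grows φ ∧ ∀ j,
      (∀ᵐ s ∂(μ j), (∀ e, (ContainsUnirational (famIdeal (F j) s) e ↔
          SlowMap φ (famIdeal (F j) s) e e) ∧
        (ContainsUnirational (famIdeal (F j) s) e ↔ ∃ p, SlowMap φ (famIdeal (F j) s) p e)) ∧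
        ∀ (J : Ideal (MvPolynomial (Fin (n j + 1)) ℂ)) (q : ℕ), IsVariety J q →
          Cone J = Cone (famIdeal (F j) s) → (Unirational J ↔ SlowMap φ J q q)) ∧
      ∀ᵐ t ∂(ν j), parX t ≠ 0 → parY t ≠ 0 →
        (JoinedByRationalCurve (famIdeal (F j) (parS t)) (parX t) (parY t) ↔
          JoinedByEntireCurve φ (famIdeal (F j) (parS t)) (parX t) (parY t)) := by
  choose φ hφ h using fun k : ℕ =>
    member_one (F k.unpair.1) (μ k.unpair.1) k.unpair.2.unpair.1 k.unpair.2.unpair.2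
  choose φ' hφ' h' using fun j : ℕ => pairs_one (F j) (ν j)
  obtain ⟨ψ1, hψ1, hle1⟩ := grows_diag φ hφ
  obtain ⟨ψ2, hψ2, hle2⟩ := grows_diag φ' hφ'
  obtain ⟨ψ, hψ, hle⟩ := grows_diag (fun k => if k = 0 then ψ1 else ψ2) (fun k => by
    split_ifs
    · exact hψ1
    · exact hψ2)
  have htr : ∀ {a b c : ℝ → ℝ}, (∃ R : ℝ, ∀ r, R ≤ r → a r ≤ b r) →
      (∃ R : ℝ, ∀ r, R ≤ r → b r ≤ c r) → ∃ R : ℝ, ∀ r, R ≤ r → a r ≤ c r := by
    rintro a b c ⟨R, h1⟩ ⟨R', h2⟩
    exact ⟨max R R', fun r hr => (h1 r ((le_max_left _ _).trans hr)).trans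
      (h2 r ((le_max_right _ _).trans hr))⟩
  have hA : ∀ k, ∃ R : ℝ, ∀ r, R ≤ r → ψ r ≤ φ k r := fun k => htr (hle 0) (by
    simpa using hle1 k)
  have hB : ∀ j, ∃ R : ℝ, ∀ r, R ≤ r → ψ r ≤ φ' j r := fun j => htr (hle 1) (by
    simpa using hle2 j)
  refine ⟨ψ, hψ, fun j => ⟨?_, h' j ψ hψ (hB j)⟩⟩
  have h1 : ∀ᵐ s ∂(μ j), ∀ p e, SlowMap ψ (famIdeal (F j) s) p e →
      ContainsUnirational (famIdeal (F j) s) e := by
    rw [ae_all_iff]
    intro p
    rw [ae_all_iff]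
    intro e
    have h2 := h (Nat.pair j (Nat.pair p e))
    have h3 := hA (Nat.pair j (Nat.pair p e))
    simp only [Nat.unpair_pair] at h2 h3
    rw [Nat.unpair_pair] at h2
    exact h2 ψ hψ h3
  filter_upwards [h1] with s hs
  have h4 : ∀ e, (ContainsUnirational (famIdeal (F j) s) e ↔ SlowMap ψ (famIdeal (F j) s) e e) ∧
      (ContainsUnirational (famIdeal (F j) s) e ↔ ∃ p, SlowMap ψ (famIdeal (F j) s) p e) :=
    fun e => ⟨⟨fun h => slow_of_contains h hψ, hs e e⟩,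
      ⟨fun h => ⟨e, slow_of_contains h hψ⟩, fun ⟨p, h⟩ => hs p e h⟩⟩
  refine ⟨h4, fun J q hJ hc => ?_⟩
  rw [unirational_iff hJ, contains_cone hc, (h4 q).1]
  simp only [SlowMap, hc]

end Pool.Agent.U578.UR
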