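import Pool.Agent.U578.UR.Desc
import Pool.Agent.U578.UR.Fam

/-!
Projective varieties over the algebraic numbers with nondegenerate entire maps of slow growth are
unirational over a number field and potentially dense.
-/

set_option autoImplicit false

namespace Pool.Agent.U578.UR

open MvPolynomial Set Filter Cardinal
open Pool.Agent.R871.SG (mv Rk mv_analytic mv_slow Grows SlowM)

variable {n : ℕ}

theorem eval_aeval_mv {p : ℕ} (P : Fin (n + 1) → MvPolynomial (Fin p) ℂ)
    (G : MvPolynomial (Fin (n + 1)) ℂ) (z : Fin p → ℂ) :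
    eval z (aeval P G) = eval (mv P z) G := by
  induction G using MvPolynomial.induction_on with
  | C a => simp
  | add f g hf hg => simp only [map_add, hf, hg]
  | mul_X f m hf =>
    rw [map_mul, map_mul, hf, aeval_X, map_mul, eval_X]
    rfl

/-- Maps of maximal rank are dominant. -/
theorem dominant_of_rk {p q : ℕ} {I : Ideal (MvPolynomial (Fin (n + 1)) ℂ)} (hI : IsVariety I q)
    {P : Fin (n + 1) → MvPolynomial (Fin p) ℂ} (hP : ∀ G ∈ I, aeval P G = 0) {z : Fin p → ℂ}
    (hz : Rk (mv P) z q) (d : ℕ) (G : MvPolynomial (Fin (n + 1)) ℂ) (hG : G.IsHomogeneous d) :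
    aeval P G = 0 ↔ G ∈ I := by
  have hpr := hI.prime
  have hle : I ≤ imIdeal P := by
    intro G hG
    rw [mem_imIdeal]
    exact fun d => hP _ (hI.homog G hG d)
  obtain ⟨g, hg⟩ := indep_of_rk hz
  let f : (MvPolynomial (Fin (n + 1)) ℂ ⧸ I) →ₐ[ℂ] MvPolynomial (Option (Fin p)) ℂ :=
    Ideal.Quotient.liftₐ I (aeval (coneP P)) fun a ha => RingHom.mem_ker.1 (hle ha)
  have hfm : ∀ F, f (Ideal.Quotient.mk I F) = aeval (coneP P) F := fun F => rfl
  have hinj : Function.Injective f := by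
    refine injective_of_indep hI.dim.le f
      (fun m => Ideal.Quotient.mk I (∑ i, C (g m i) * X i)) ?_
    have h2 : (fun m : Fin (q + 1) => f (Ideal.Quotient.mk I (∑ i, C (g m i) * X i))) =
        fun m => ∑ i, C (g m i) * coneP P i := by
      funext m
      rw [hfm, map_sum]
      refine Finset.sum_congr rfl fun i _ => ?_
      rw [map_mul, aeval_X, aeval_C, MvPolynomial.algebraMap_eq]
    rw [h2]
    exact hg
  rw [← form_mem_imIdeal P hG]
  refine ⟨fun h => ?_, fun h => hle h⟩
  have h3 : f (Ideal.Quotient.mk I G) = 0 := by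
    rw [hfm]
    exact RingHom.mem_ker.1 h
  exact Ideal.Quotient.eq_zero_iff_mem.1 ((injective_iff_map_eq_zero f).1 hinj _ h3)

/-- The field of the algebraic numbers. -/
abbrev Qbar : Type := (algebraicClosure ℚ ℂ : IntermediateField ℚ ℂ)

instance : IsAlgClosed Qbar := (algebraicClosure.isAlgClosure ℚ ℂ).isAlgClosed

instance : Countable Qbar := by
  have h1 : Set.Countable {x : ℂ | IsAlgebraic ℚ x} := Algebraic.countable ℚ ℂ
  have h2 : ((algebraicClosure ℚ ℂ : IntermediateField ℚ ℂ) : Set ℂ).Countable :=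
    h1.mono fun x hx => mem_algebraicClosure_iff.1 hx
  exact h2.to_subtype

instance {σ : Type} [Finite σ] : Countable (MvPolynomial σ Qbar) := by
  rw [← Cardinal.mk_le_aleph0_iff]
  refine MvPolynomial.cardinalMk_le_max.trans ?_
  simp only [sup_le_iff]
  exact ⟨⟨Cardinal.mk_le_aleph0, Cardinal.mk_le_aleph0⟩, le_rfl⟩

/-- The polynomial with complex coefficients. -/
noncomputable def toC {σ : Type} (G : MvPolynomial σ Qbar) : MvPolynomial σ ℂ :=
  map (algebraMap Qbar ℂ) G

/-- The ideal generated by the equations over the complex numbers. -/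
noncomputable def idealC {r : ℕ} (F : Fin r → MvPolynomial (Fin (n + 1)) Qbar) :
    Ideal (MvPolynomial (Fin (n + 1)) ℂ) := Ideal.span (range fun i => toC (F i))

theorem aeval_toC {p : ℕ} (P : Fin (n + 1) → MvPolynomial (Fin p) Qbar)
    (G : MvPolynomial (Fin (n + 1)) Qbar) :
    aeval (fun j => toC (P j)) (toC G) = toC (aeval P G) := by
  simp only [toC]
  induction G using MvPolynomial.induction_on with
  | C a => simp [MvPolynomial.algebraMap_eq]
  | add f g hf hg => simp only [map_add, hf, hg]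
  | mul_X f m hf => simp only [map_mul, hf, map_X, aeval_X]

theorem into_idealC {p r : ℕ} (F : Fin r → MvPolynomial (Fin (n + 1)) Qbar)
    (P : Fin (n + 1) → MvPolynomial (Fin p) ℂ) (h : ∀ i, aeval P (toC (F i)) = 0) :
    ∀ G ∈ idealC F, aeval P G = 0 := by
  have h1 : idealC F ≤ RingHom.ker (aeval P : MvPolynomial (Fin (n + 1)) ℂ →ₐ[ℂ] _) := by
    refine Ideal.span_le.2 ?_
    rintro _ ⟨i, rfl⟩
    exact RingHom.mem_ker.2 (h i)
  exact fun G hG => RingHom.mem_ker.1 (h1 hG)

/-- `X` is potentially dense: there is a number field `k`, over which `X` is given, such that every form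
which vanishes at the points of `X` over `k` vanishes on `X`. -/
def PotentiallyDense {r : ℕ} (F : Fin r → MvPolynomial (Fin (n + 1)) Qbar) : Prop :=
  ∃ k : IntermediateField ℚ ℂ, FiniteDimensional ℚ k ∧
    (∀ i m, algebraMap Qbar ℂ (coeff m (F i)) ∈ k) ∧
    ∀ (d : ℕ) (G : MvPolynomial (Fin (n + 1)) ℂ), G.IsHomogeneous d →
      (∀ x ∈ Cone (idealC F), x ≠ 0 → (∀ i, x i ∈ k) → eval x G = 0) →
      ∀ x ∈ Cone (idealC F), x ≠ 0 → eval x G = 0

theorem dense_of_map {q r : ℕ} (F : Fin r → MvPolynomial (Fin (n + 1)) Qbar)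
    {J : Ideal (MvPolynomial (Fin (n + 1)) ℂ)} (hJ : IsVariety J q)
    (hc : Cone J = Cone (idealC F)) (P : Fin (n + 1) → MvPolynomial (Fin q) Qbar)
    (hP : ∀ i, aeval P (F i) = 0) {z : Fin q → ℂ} (hz : Rk (mv fun j => toC (P j)) z q) :
    PotentiallyDense F := by
  classical
  let PC : Fin (n + 1) → MvPolynomial (Fin q) ℂ := fun j => toC (P j)
  have hPC : ∀ G ∈ idealC F, aeval PC G = 0 := into_idealC F PC fun i => by
    rw [aeval_toC, hP]
    simp [toC]
  have hPJ : ∀ G ∈ J, aeval PC G = 0 := (cone_iff J PC).2 fun z => by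
    rw [hc]
    exact (cone_iff _ PC).1 hPC z
  let T : Finset ℂ := (Finset.univ.biUnion fun j => (P j).support.image fun m =>
      algebraMap Qbar ℂ (coeff m (P j))) ∪
    Finset.univ.biUnion fun i => (F i).support.image fun m => algebraMap Qbar ℂ (coeff m (F i))
  have hint : ∀ a : Qbar, IsIntegral ℚ (algebraMap Qbar ℂ a) := fun a =>
    (mem_algebraicClosure_iff.1 a.2).isIntegral
  have hT : ∀ x ∈ (T : Set ℂ), IsIntegral ℚ x := by
    intro x hx
    have hx' : x ∈ T := hx
    simp only [T, Finset.mem_union, Finset.mem_biUnion, Finset.mem_univ, true_and,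
      Finset.mem_image] at hx'
    rcases hx' with ⟨j, m, -, rfl⟩ | ⟨j, m, -, rfl⟩
    · exact hint _
    · exact hint _
  let k : IntermediateField ℚ ℂ := IntermediateField.adjoin ℚ (T : Set ℂ)
  have hk : FiniteDimensional ℚ k := IntermediateField.finiteDimensional_adjoin hT
  have hkP : ∀ j m, algebraMap Qbar ℂ (coeff m (P j)) ∈ k := by
    intro j m
    by_cases hm : m ∈ (P j).support
    · refine IntermediateField.subset_adjoin ℚ _ ?_
      refine Finset.mem_coe.2 (Finset.mem_union_left _ ?_)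
      exact Finset.mem_biUnion.2 ⟨j, Finset.mem_univ j, Finset.mem_image_of_mem _ hm⟩
    · rw [notMem_support_iff.1 hm, map_zero]
      exact zero_mem k
  have hkF : ∀ j m, algebraMap Qbar ℂ (coeff m (F j)) ∈ k := by
    intro j m
    by_cases hm : m ∈ (F j).support
    · refine IntermediateField.subset_adjoin ℚ _ ?_
      refine Finset.mem_coe.2 (Finset.mem_union_right _ ?_)
      exact Finset.mem_biUnion.2 ⟨j, Finset.mem_univ j, Finset.mem_image_of_mem _ hm⟩
    · rw [notMem_support_iff.1 hm, map_zero]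
      exact zero_mem k
  -- a coordinate which does not vanish
  obtain ⟨j0, hj0⟩ : ∃ j, PC j ≠ 0 := by
    obtain ⟨v, hv⟩ := hz
    by_contra hcon
    push Not at hcon
    refine hv.ne_zero 0 ?_
    rw [Fin.cons_zero]
    funext j
    have h1 : toC (P j) = 0 := hcon j
    simp [mv, h1]
  refine ⟨k, hk, hkF, fun d G hG hv x hx _ => ?_⟩
  have h1 : aeval PC (G * X j0) = 0 := by
    refine MvPolynomial.funext_set (fun _ => range (algebraMap ℚ ℂ)) (fun _ =>
      infinite_range_of_injective (algebraMap ℚ ℂ).injective) fun a ha => ?_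
    rw [map_zero, eval_aeval_mv, map_mul, eval_X]
    by_cases h0 : mv PC a = 0
    · rw [h0]
      simp
    · rw [hv (mv PC a) ((cone_iff _ PC).1 hPC a) h0 (fun i => ?_), zero_mul]
      have h2 : mv PC a i = ∑ m ∈ (PC i).support, coeff m (PC i) * ∏ j ∈ m.support, a j ^ m j :=
        eval_eq a (PC i)
      rw [h2]
      refine sum_mem fun m _ => mul_mem ?_ (prod_mem fun j _ => pow_mem ?_ _)
      · have h3 : coeff m (PC i) = algebraMap Qbar ℂ (coeff m (P i)) := coeff_map _ _ _
        rw [h3]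
        exact hkP i m
      · obtain ⟨b, hb⟩ := ha j (mem_univ j)
        rw [← hb]
        exact k.algebraMap_mem b
  rw [map_mul, aeval_X] at h1
  have h2 := (mul_eq_zero.1 h1).resolve_right hj0
  have h3 := (dominant_of_rk hJ hPJ hz d G hG).1 h2
  rw [← hc] at hx
  exact hx G h3

/-- **One growth function for all projective varieties over the algebraic numbers.** -/
theorem slow_dense : ∃ φ : ℝ → ℝ, Grows φ ∧
    ∀ (n r : ℕ) (F : Fin r → MvPolynomial (Fin (n + 1)) Qbar),
      (∀ e, (∃ p, SlowMap φ (idealC F) p e) ↔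
        ∃ P : Fin (n + 1) → MvPolynomial (Fin e) Qbar, (∀ i, aeval P (F i) = 0) ∧
          ((e + 1 : ℕ) : Cardinal) ≤
            Algebra.trdeg ℂ (MvPolynomial (Fin (n + 1)) ℂ ⧸ imIdeal fun j => toC (P j))) ∧
      ∀ (J : Ideal (MvPolynomial (Fin (n + 1)) ℂ)) (q : ℕ), IsVariety J q →
        Cone J = Cone (idealC F) → (∃ p, SlowMap φ J p q) → PotentiallyDense F := by
  obtain ⟨s, hs⟩ := exists_surjective_nat (Σ (n r : ℕ), (Fin r → MvPolynomial (Fin (n + 1)) Qbar))
  obtain ⟨φ, hφ, h⟩ := slow_iff (fun j => (s j).1) (fun j => idealC (s j).2.2)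
  have key : ∀ (n r : ℕ) (F : Fin r → MvPolynomial (Fin (n + 1)) Qbar) (e : ℕ),
      (∃ p, SlowMap φ (idealC F) p e) → ∃ P : Fin (n + 1) → MvPolynomial (Fin e) Qbar,
        (∀ i, aeval P (F i) = 0) ∧ Rk (mv fun j => toC (P j)) 0 e := by
    intro n r F e hsl
    obtain ⟨j, hj⟩ := hs ⟨n, r, F⟩
    have h1 := (h j e).2
    rw [hj] at h1
    obtain ⟨p, P, hP, htr⟩ := h1.2 hsl
    obtain ⟨z, hz⟩ := rk_of_trdeg htr
    obtain ⟨Q, hQ, hli⟩ := restrict_std hz
    rw [coeff_unitExp] at hli
    have hQI : ∀ G ∈ idealC F, aeval Q G = 0 := (cone_iff _ Q).2 fun u => by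
      obtain ⟨y, hy⟩ := hQ u
      rw [hy]
      exact (cone_iff _ P).1 hP y
    obtain ⟨Q', hQ', hli'⟩ := descent F Q (fun i => hQI _ (Ideal.subset_span ⟨i, rfl⟩)) hli
    refine ⟨Q', hQ', fun k => Pi.single k 1, ?_⟩
    have h2 := coeff_unitExp fun j => toC (Q' j)
    rw [h2]
    exact hli'
  refine ⟨φ, hφ, fun n r F => ⟨fun e => ⟨fun hsl => ?_, ?_⟩, fun J q hJ hc hsl => ?_⟩⟩
  · obtain ⟨P, hP, hrk⟩ := key n r F e hsl
    exact ⟨P, hP, trdeg_of_rk hrk⟩
  · rintro ⟨P, hP, htr⟩
    refine ⟨e, slow_of_contains ⟨e, fun j => toC (P j), into_idealC F _ fun i => ?_, htr⟩ hφ⟩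
    rw [aeval_toC, hP]
    simp [toC]
  · have hsl' : ∃ p, SlowMap φ (idealC F) p q := by
      obtain ⟨p, hp⟩ := hsl
      refine ⟨p, ?_⟩
      simpa only [SlowMap, hc] using hp
    obtain ⟨P, hP, hrk⟩ := key n r F q hsl'
    exact dense_of_map F hJ hc P hP hrk

end Pool.Agent.U578.UR
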