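import Pool.Agent.U578.UR.Seq

/-!
Descent of rational maps of given rank to an algebraically closed subfield of the complex numbers.
-/

set_option autoImplicit false

namespace Pool.Agent.U578.UR

open MvPolynomial
open Pool.Agent.R871.SG (mv Rk mv_analytic)
open Pool.Agent.H124R3 (jd_chain)

variable {p e : ℕ}

/-- Restriction to an affine subspace, with the coordinate directions. -/
theorem restrict_std {σ : Type} [Fintype σ] {P : σ → MvPolynomial (Fin p) ℂ} {z : Fin p → ℂ}
    (h : Rk (mv P) z e) :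
    ∃ Q : σ → MvPolynomial (Fin e) ℂ, (∀ u, ∃ y, mv Q u = mv P y) ∧
      LinearIndependent ℂ (Fin.cons (mv Q 0) (fun k => fderiv ℂ (mv Q) 0 (Pi.single k 1)) :
        Fin (e + 1) → σ → ℂ) := by
  classical
  obtain ⟨v, hv⟩ := h
  let ψ : Fin p → MvPolynomial (Fin e) ℂ := fun m => C (z m) + ∑ k, C (v k m) * X k
  have hψ : ∀ (G : MvPolynomial (Fin p) ℂ) (u : Fin e → ℂ),
      eval u (aeval ψ G) = eval (fun m => z m + ∑ k, v k m * u k) G := by
    intro G u
    induction G using MvPolynomial.induction_on with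
    | C a => simp
    | add f g hf hg => simp only [map_add, hf, hg]
    | mul_X f m hf =>
      rw [map_mul, map_mul, hf, aeval_X, map_mul, eval_X]
      simp [ψ]
  have hψ0 : ∀ G : MvPolynomial (Fin p) ℂ, eval 0 (aeval ψ G) = eval z G := by
    intro G
    rw [hψ]
    simp
  have hd : ∀ k m, pderiv k (ψ m) = C (v k m) := by
    intro k m
    simp only [ψ, map_add, pderiv_C, zero_add, map_sum]
    rw [Finset.sum_eq_single k]
    · rw [pderiv_C_mul, pderiv_X_self, mul_one]
    · intro b _ hb
      rw [pderiv_C_mul, pderiv_X_of_ne (fun h => hb h), mul_zero]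
    · simp
  refine ⟨fun i => aeval ψ (P i), fun u => ⟨fun m => z m + ∑ k, v k m * u k, ?_⟩, ?_⟩
  · funext i
    exact hψ (P i) u
  · have h1 : mv (fun i => aeval ψ (P i)) 0 = mv P z := funext fun i => hψ0 (P i)
    have h2 : ∀ k, fderiv ℂ (mv fun i => aeval ψ (P i)) 0 (Pi.single k 1) =
        fderiv ℂ (mv P) z (v k) := by
      intro k
      funext i
      rw [fderiv_mv, fderiv_mv]
      rw [Finset.sum_eq_single k (fun b _ hb => by rw [Pi.single_eq_of_ne hb, mul_zero])
        (fun h => absurd (Finset.mem_univ k) h), Pi.single_eq_same, mul_one]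
      have h3 := jd_chain ψ k (P i)
      rw [h3, map_sum]
      refine Finset.sum_congr rfl fun m _ => ?_
      rw [map_mul, hψ0, hd, eval_C]
    rw [h1]
    simp only [h2]
    exact hv

/-- The exponents `0` and the unit vectors. -/
noncomputable def unitExp (l : Fin (e + 1)) : Fin e →₀ ℕ :=
  (Fin.cons 0 (fun k => Finsupp.single k 1) : Fin (e + 1) → Fin e →₀ ℕ) l

theorem coeff_unitExp {σ : Type} [Fintype σ] (Q : σ → MvPolynomial (Fin e) ℂ) :
    (Fin.cons (mv Q 0) (fun k => fderiv ℂ (mv Q) 0 (Pi.single k 1)) : Fin (e + 1) → σ → ℂ) =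
      fun l i => coeff (unitExp l) (Q i) := by
  classical
  funext l i
  refine Fin.cases ?_ (fun k => ?_) l
  · simp only [Fin.cons_zero, unitExp, mv]
    rw [eval_zero, constantCoeff_eq]
  · simp only [Fin.cons_succ, unitExp]
    rw [fderiv_mv, Finset.sum_eq_single k (fun b _ hb => by rw [Pi.single_eq_of_ne hb, mul_zero])
      (fun h => absurd (Finset.mem_univ k) h), Pi.single_eq_same, mul_one]
    rw [eval_zero, constantCoeff_eq, coeff_pderiv]
    simp

variable {K : Type} [Field K] [Algebra K ℂ]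

/-- **Descent.** -/
theorem descent [IsAlgClosed K] {ι : Type} {n : ℕ} (F : ι → MvPolynomial (Fin (n + 1)) K)
    (Q : Fin (n + 1) → MvPolynomial (Fin e) ℂ)
    (hQ : ∀ i, aeval Q (map (algebraMap K ℂ) (F i)) = 0)
    (hli : LinearIndependent ℂ fun (l : Fin (e + 1)) i => coeff (unitExp l) (Q i)) :
    ∃ Q' : Fin (n + 1) → MvPolynomial (Fin e) K, (∀ i, aeval Q' (F i) = 0) ∧
      LinearIndependent ℂ fun (l : Fin (e + 1)) i =>
        coeff (unitExp l) (map (algebraMap K ℂ) (Q' i)) := by
  classical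
  -- the exponents which occur
  let S : Finset (Fin e →₀ ℕ) := (Finset.univ.biUnion fun j => (Q j).support) ∪
    Finset.univ.image (unitExp (e := e))
  have hSQ : ∀ j, (Q j).support ⊆ S := fun j a ha =>
    Finset.mem_union_left _ (Finset.mem_biUnion.2 ⟨j, Finset.mem_univ j, ha⟩)
  have hSu : ∀ l, unitExp l ∈ S := fun l =>
    Finset.mem_union_right _ (Finset.mem_image_of_mem _ (Finset.mem_univ l))
  let N := (S × Fin (n + 1)) ⊕ (Fin (e + 1) × Fin (n + 1))
  let R := MvPolynomial N K
  let U : Fin (n + 1) → MvPolynomial (Fin e) R := fun j =>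
    ∑ a : S, monomial (a : Fin e →₀ ℕ) (X (Sum.inl (a, j)) : R)
  -- a left inverse
  let w : Fin (e + 1) → Fin (n + 1) → ℂ := fun l i => coeff (unitExp l) (Q i)
  let T : (Fin (e + 1) → ℂ) →ₗ[ℂ] (Fin (n + 1) → ℂ) := Fintype.linearCombination ℂ w
  have hT : LinearMap.ker T = ⊥ := by
    rw [Fintype.linearIndependent_iff] at hli
    rw [LinearMap.ker_eq_bot']
    intro c hc
    funext i
    exact hli c (by simpa [T, w, Fintype.linearCombination_apply] using hc) i
  obtain ⟨g, hg⟩ := T.exists_leftInverse_of_injective hT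
  have hgw : ∀ k, g (w k) = Pi.single k 1 := by
    intro k
    have h2 := LinearMap.congr_fun hg (Pi.single k 1)
    simp only [LinearMap.comp_apply, LinearMap.id_apply] at h2
    rw [← h2]
    congr 1
    simp [T, Fintype.linearCombination_apply_single]
  have hgs : ∀ (y : Fin (n + 1) → ℂ) m, g y m = ∑ i, g (Pi.single i 1) m * y i := by
    intro y m
    have h3 : y = ∑ t, y t • (Pi.single t (1 : ℂ) : Fin (n + 1) → ℂ) := by
      funext t
      simp [Finset.sum_apply, Pi.single_apply]
    conv_lhs => rw [h3]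
    rw [map_sum, Finset.sum_apply]
    exact Finset.sum_congr rfl fun t _ => by rw [map_smul, Pi.smul_apply, smul_eq_mul, mul_comm]
  let c : N → ℂ := Sum.elim (fun x => coeff (x.1 : Fin e →₀ ℕ) (Q x.2))
    (fun x => g (Pi.single x.2 1) x.1)
  let E : R →ₐ[K] ℂ := aeval c
  have hmapU : ∀ {A : Type} [CommRing A] [Algebra K A] (θ : R →ₐ[K] A) (j : Fin (n + 1)),
      mapAlgHom θ (U j) = ∑ a : S, monomial (a : Fin e →₀ ℕ) (θ (X (Sum.inl (a, j)))) := by
    intro A _ _ θ j
    rw [map_sum]
    refine Finset.sum_congr rfl fun a _ => ?_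
    exact map_monomial θ.toRingHom (a : Fin e →₀ ℕ) _
  have hUQ : ∀ j, mapAlgHom E (U j) = Q j := by
    intro j
    rw [hmapU]
    have h1 : ∀ a : S, E (X (Sum.inl (a, j))) = coeff (a : Fin e →₀ ℕ) (Q j) := fun a =>
      aeval_X c (Sum.inl (a, j))
    rw [Finset.sum_congr rfl fun a _ => by rw [h1 a]]
    rw [Finset.sum_coe_sort S fun a => monomial a (coeff a (Q j))]
    rw [← Finset.sum_subset (hSQ j) (fun a _ ha => by
      rw [notMem_support_iff.1 ha, monomial_zero])]
    exact support_sum_monomial_coeff (Q j)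
  have hcomm : ∀ {A : Type} [CommRing A] [Algebra K A] (θ : R →ₐ[K] A) (i : ι),
      mapAlgHom θ (aeval U (F i)) = aeval (fun j => mapAlgHom θ (U j)) (F i) := by
    intro A _ _ θ i
    exact (MvPolynomial.comp_aeval_apply U (mapAlgHom θ) (F i))
  let 𝔭 : Ideal R := RingHom.ker E
  have hprime : 𝔭.IsPrime := RingHom.ker_isPrime _
  have hne : (zeroLocus K 𝔭 : Set (N → K)).Nonempty := by
    by_contra hcon
    rw [Set.not_nonempty_iff_eq_empty] at hcon
    have h1 := IsPrime.vanishingIdeal_zeroLocus (K := K) 𝔭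
    rw [hcon, vanishingIdeal_empty] at h1
    exact hprime.ne_top h1.symm
  obtain ⟨y, hy⟩ := hne
  have hy' : ∀ f : R, E f = 0 → aeval y f = 0 := fun f hf => hy f (RingHom.mem_ker.2 hf)
  let Y : R →ₐ[K] K := aeval y
  refine ⟨fun j => mapAlgHom Y (U j), fun i => ?_, ?_⟩
  · rw [← hcomm]
    ext d
    rw [coeff_zero]
    have h1 : ∀ {A : Type} [CommRing A] [Algebra K A] (θ : R →ₐ[K] A) (G : MvPolynomial (Fin e) R),
        coeff d (mapAlgHom θ G) = θ (coeff d G) := by
      intro A _ _ θ G
      have h2 : mapAlgHom θ G = map θ.toRingHom G := rfl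
      rw [h2, coeff_map]
      rfl
    rw [h1]
    refine hy' _ ?_
    rw [← h1, hcomm]
    simp only [hUQ]
    have h3 := hQ i
    rw [aeval_map_algebraMap] at h3
    rw [h3, coeff_zero]
  · have hcf : ∀ l i, coeff (unitExp l) (mapAlgHom Y (U i)) = y (Sum.inl (⟨unitExp l, hSu l⟩, i)) := by
      intro l i
      rw [hmapU, coeff_sum]
      simp only [coeff_monomial]
      rw [Finset.sum_eq_single (⟨unitExp l, hSu l⟩ : S)]
      · rw [if_pos rfl]
        exact aeval_X y _
      · intro b _ hb
        rw [if_neg]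
        intro h
        exact hb (Subtype.ext h)
      · intro h
        exact absurd (Finset.mem_univ _) h
    have hrel : ∀ l k : Fin (e + 1), ∑ i, y (Sum.inr (l, i)) *
        y (Sum.inl (⟨unitExp k, hSu k⟩, i)) = if k = l then 1 else 0 := by
      intro l k
      let f : R := ∑ i, X (Sum.inr (l, i)) * X (Sum.inl (⟨unitExp k, hSu k⟩, i)) -
        (if k = l then 1 else 0)
      have h1 : E f = 0 := by
        have hX : ∀ s : N, E (X s) = c s := fun s => aeval_X c s
        have h2 : E f = ∑ i, g (Pi.single i 1) l * w k i - if k = l then 1 else 0 := by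
          simp only [f, map_sub, map_sum, map_mul, hX, apply_ite E, map_one, map_zero]
          rfl
        rw [h2, ← hgs, hgw, Pi.single_apply]
        by_cases hkl : k = l
        · subst hkl; simp
        · rw [if_neg hkl, if_neg (Ne.symm hkl), sub_zero]
      have h3 := hy' f h1
      have hYX : ∀ s : N, (aeval y : R →ₐ[K] K) (X s) = y s := fun s => aeval_X y s
      simp only [f, map_sub, map_sum, map_mul, hYX, apply_ite (aeval y : R →ₐ[K] K), map_one,
        map_zero] at h3
      exact sub_eq_zero.1 h3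
    rw [Fintype.linearIndependent_iff]
    intro v hv l
    have h1 : ∀ i, ∑ k, v k * algebraMap K ℂ (y (Sum.inl (⟨unitExp k, hSu k⟩, i))) = 0 := by
      intro i
      have h2 := congrFun hv i
      rw [Finset.sum_apply] at h2
      simp only [Pi.smul_apply, smul_eq_mul, coeff_map, hcf, Pi.zero_apply] at h2
      exact h2
    have h3 : ∑ i, algebraMap K ℂ (y (Sum.inr (l, i))) *
        ∑ k, v k * algebraMap K ℂ (y (Sum.inl (⟨unitExp k, hSu k⟩, i))) = 0 :=
      Finset.sum_eq_zero fun i _ => by rw [h1 i, mul_zero]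
    have h4 : ∑ i, algebraMap K ℂ (y (Sum.inr (l, i))) *
        ∑ k, v k * algebraMap K ℂ (y (Sum.inl (⟨unitExp k, hSu k⟩, i))) =
        ∑ k, v k * algebraMap K ℂ (∑ i, y (Sum.inr (l, i)) *
          y (Sum.inl (⟨unitExp k, hSu k⟩, i))) := by
      simp only [Finset.mul_sum, map_sum, map_mul]
      rw [Finset.sum_comm]
      exact Finset.sum_congr rfl fun k _ => Finset.sum_congr rfl fun i _ => by ring
    rw [h4] at h3
    simp only [hrel] at h3
    simpa [apply_ite] using h3

end Pool.Agent.U578.UR
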