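import Pool.Agent.R871.SG.MvB
import Pool.Agent.H124R3.Jac

/-!
The rank of a polynomial map to a projective space and algebraic independence.
-/

set_option autoImplicit false

namespace Pool.Agent.U578.UR

open MvPolynomial
open Pool.Agent.R871.SG (mv Rk mv_analytic)
open Pool.Agent.H124R3 (jacobian_dominant_at)

variable {σ : Type} [Fintype σ] {p q : ℕ}

/-- The polynomials `t * P i`, with an additional variable `t` (the variable `none`). -/
noncomputable def coneP (P : σ → MvPolynomial (Fin p) ℂ) (i : σ) : MvPolynomial (Option (Fin p)) ℂ :=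
  X none * rename some (P i)

/-- The derivative of a polynomial function. -/
theorem hasFDerivAt_eval (P : MvPolynomial (Fin p) ℂ) (z : Fin p → ℂ) :
    HasFDerivAt (fun y : Fin p → ℂ => eval y P)
      (∑ j, eval z (pderiv j P) • (ContinuousLinearMap.proj j : (Fin p → ℂ) →L[ℂ] ℂ)) z := by
  induction P using MvPolynomial.induction_on with
  | C a =>
    simp only [eval_C]
    refine (hasFDerivAt_const a z).congr_fderiv ?_
    ext v
    simp
  | add f g hf hg =>
    simp only [map_add]
    refine (hf.fun_add hg).congr_fderiv ?_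
    ext v
    simp [add_mul, Finset.sum_add_distrib]
  | mul_X f i hf =>
    have hX : HasFDerivAt (fun y : Fin p → ℂ => y i)
      (ContinuousLinearMap.proj i : (Fin p → ℂ) →L[ℂ] ℂ) z :=
      (ContinuousLinearMap.proj (R := ℂ) (φ := fun _ : Fin p => ℂ) i).hasFDerivAt
    simp only [map_mul, eval_X]
    refine (hf.fun_mul hX).congr_fderiv ?_
    ext v
    have h1 : ∀ j, eval z (pderiv j (f * X i)) * v j =
        z i * (eval z (pderiv j f) * v j) + eval z f * (if j = i then v j else 0) := by
      intro j
      rw [pderiv_mul, pderiv_X, map_add, map_mul, map_mul, eval_X]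
      by_cases h : j = i
      · subst h; simp; ring
      · rw [Pi.single_eq_of_ne (Ne.symm h), if_neg h]; simp; ring
    simp only [add_apply, smul_apply, ContinuousLinearMap.proj_apply, smul_eq_mul, sum_apply]
    rw [Finset.sum_congr rfl fun j _ => h1 j, Finset.sum_add_distrib, ← Finset.mul_sum,
      ← Finset.mul_sum, Finset.sum_ite_eq' Finset.univ i, if_pos (Finset.mem_univ i)]
    ring

theorem fderiv_mv (P : σ → MvPolynomial (Fin p) ℂ) (z v : Fin p → ℂ) (i : σ) :
    fderiv ℂ (mv P) z v i = ∑ j, eval z (pderiv j (P i)) * v j := by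
  have h : HasFDerivAt (mv P) (ContinuousLinearMap.pi fun i =>
      ∑ j, eval z (pderiv j (P i)) • (ContinuousLinearMap.proj j : (Fin p → ℂ) →L[ℂ] ℂ)) z :=
    hasFDerivAt_pi.2 fun i => hasFDerivAt_eval (P i) z
  rw [h.fderiv]
  simp [ContinuousLinearMap.sum_apply]

theorem eval_rename_some (P : MvPolynomial (Fin p) ℂ) (u : Option (Fin p) → ℂ) :
    eval u (rename some P) = eval (fun j => u (some j)) P := by
  rw [eval_rename]; rfl

theorem pderiv_none_rename (P : MvPolynomial (Fin p) ℂ) :
    pderiv (none : Option (Fin p)) (rename some P) = 0 := by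
  classical
  refine pderiv_eq_zero_of_notMem_vars fun h => ?_
  have h1 := vars_rename some P h
  simp at h1

/-- The gradients of the polynomials `t * P i`. -/
theorem eval_pderiv_coneP_none (P : σ → MvPolynomial (Fin p) ℂ) (i : σ) (u : Option (Fin p) → ℂ) :
    eval u (pderiv none (coneP P i)) = eval (fun j => u (some j)) (P i) := by
  rw [coneP, pderiv_mul, pderiv_none_rename, mul_zero, add_zero, pderiv_X_self, one_mul,
    eval_rename_some]

theorem eval_pderiv_coneP_some (P : σ → MvPolynomial (Fin p) ℂ) (i : σ) (u : Option (Fin p) → ℂ)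
    (j : Fin p) : eval u (pderiv (some j) (coneP P i)) =
      u none * eval (fun j => u (some j)) (pderiv j (P i)) := by
  rw [coneP, pderiv_mul, pderiv_X_of_ne (by simp), zero_mul, zero_add,
    pderiv_rename (Option.some_injective _), map_mul, eval_X, eval_rename_some]

/-- If `P` has rank at least `q` at a point, then `q + 1` linear combinations of the polynomials `t P i`
are algebraically independent. -/
theorem indep_of_rk {P : σ → MvPolynomial (Fin p) ℂ} {z : Fin p → ℂ} (h : Rk (mv P) z q) :
    ∃ g : Fin (q + 1) → σ → ℂ, AlgebraicIndependent ℂ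
      fun m => ∑ i, C (g m i) * coneP P i := by
  classical
  obtain ⟨v, hv⟩ := h
  set w : Fin (q + 1) → σ → ℂ := Fin.cons (mv P z) fun i => fderiv ℂ (mv P) z (v i) with hw
  let T : (Fin (q + 1) → ℂ) →ₗ[ℂ] (σ → ℂ) := Fintype.linearCombination ℂ w
  have hT : LinearMap.ker T = ⊥ := by
    rw [Fintype.linearIndependent_iff] at hv
    rw [LinearMap.ker_eq_bot']
    intro c hc
    funext i
    exact hv c (by simpa [T, Fintype.linearCombination_apply] using hc) i
  obtain ⟨g, hg⟩ := T.exists_leftInverse_of_injective hT
  have hgw : ∀ k, g (w k) = Pi.single k 1 := by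
    intro k
    have h2 := LinearMap.congr_fun hg (Pi.single k 1)
    simp only [LinearMap.comp_apply, LinearMap.id_apply] at h2
    rw [← h2]
    congr 1
    simp [T, Fintype.linearCombination_apply_single]
  have hgs : ∀ (y : σ → ℂ) m, g y m = ∑ i, g (Pi.single i 1) m * y i := by
    intro y m
    have h3 : y = ∑ t, y t • (Pi.single t (1 : ℂ) : σ → ℂ) := by
      funext t
      simp [Finset.sum_apply, Pi.single_apply]
    conv_lhs => rw [h3]
    rw [map_sum, Finset.sum_apply]
    exact Finset.sum_congr rfl fun t _ => by rw [map_smul, Pi.smul_apply, smul_eq_mul, mul_comm]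
  refine ⟨fun m i => g (Pi.single i 1) m, ?_⟩
  rw [algebraicIndependent_iff]
  intro F hF
  let u : Option (Fin p) → ℂ := fun o => o.elim 1 z
  have hu : (fun j => u (some j)) = z := rfl
  have hu0 : u none = 1 := rfl
  refine jacobian_dominant_at _ u (fun c hc => ?_) F hF
  have hN : ∀ m, eval u (pderiv none (∑ i, C (g (Pi.single i 1) m) * coneP P i)) = g (w 0) m := by
    intro m
    rw [map_sum, map_sum, hgs (w 0) m]
    refine Finset.sum_congr rfl fun i _ => ?_
    rw [pderiv_C_mul, map_mul, eval_C, eval_pderiv_coneP_none, hu]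
    rfl
  have hS : ∀ m j, eval u (pderiv (some j) (∑ i, C (g (Pi.single i 1) m) * coneP P i)) =
      ∑ i, g (Pi.single i 1) m * eval z (pderiv j (P i)) := by
    intro m j
    rw [map_sum, map_sum]
    refine Finset.sum_congr rfl fun i _ => ?_
    rw [pderiv_C_mul, map_mul, eval_C, eval_pderiv_coneP_some, hu, hu0, one_mul]
  funext k
  refine Fin.cases ?_ (fun k => ?_) k
  · have h1 := hc none
    simp only [hN] at h1
    rw [Finset.sum_congr rfl fun m _ => by rw [hgw 0]] at h1
    simpa [Pi.single_apply] using h1
  · have h2 : ∀ m, g (w k.succ) m = ∑ j, v k j *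
        ∑ i, g (Pi.single i 1) m * eval z (pderiv j (P i)) := by
      intro m
      rw [hgs]
      simp only [hw, Fin.cons_succ, fderiv_mv, Finset.mul_sum]
      rw [Finset.sum_comm]
      exact Finset.sum_congr rfl fun j _ => Finset.sum_congr rfl fun i _ => by ring
    have h3 : ∑ m, c m * g (w k.succ) m = 0 := by
      simp only [h2, Finset.mul_sum]
      rw [Finset.sum_comm]
      refine Finset.sum_eq_zero fun j _ => ?_
      have h4 := hc (some j)
      simp only [hS, Finset.mul_sum] at h4
      have h5 : v k j * ∑ m, ∑ i, c m * (g (Pi.single i 1) m * eval z (pderiv j (P i))) = 0 := by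
        rw [h4, mul_zero]
      rw [← h5, Finset.mul_sum]
      refine Finset.sum_congr rfl fun m _ => ?_
      rw [Finset.mul_sum]
      exact Finset.sum_congr rfl fun i _ => by ring
    rw [Finset.sum_congr rfl fun m _ => by rw [hgw k.succ]] at h3
    simpa [Pi.single_apply] using h3

end Pool.Agent.U578.UR
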