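import Pool.Agent.U578.UR.Jac
import Pool.Agent.U578.UR.Fd

/-!
Rational maps from affine spaces to projective varieties: rank and dimension of the image.
-/

set_option autoImplicit false

namespace Pool.Agent.U578.UR

open MvPolynomial Cardinal
open Pool.Agent.R871.SG (mv Rk mv_analytic)
open Pool.Agent.H124R3 (jd_chain)

variable {σ : Type} [Fintype σ] {p q : ℕ}

/-- Algebraically independent `t P i` give a point of maximal rank. -/
theorem rk_of_indep {P : σ → MvPolynomial (Fin p) ℂ} (i : Fin (q + 1) → σ)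
    (h : AlgebraicIndependent ℂ fun j => coneP P (i j)) : ∃ z, Rk (mv P) z q := by
  classical
  obtain ⟨d, B, hd, hB⟩ := jacobian_inverse (fun j => coneP P (i j)) h
  have hP0 : coneP P (i 0) ≠ 0 := h.ne_zero 0
  have hne : d * coneP P (i 0) ≠ 0 := mul_ne_zero hd hP0
  obtain ⟨u, hu⟩ : ∃ u, eval u (d * coneP P (i 0)) ≠ 0 := by
    by_contra hcon
    push Not at hcon
    exact hne (MvPolynomial.funext fun u => by rw [hcon u, map_zero])
  rw [map_mul, coneP, map_mul, eval_X, eval_rename_some] at hu
  set z : Fin p → ℂ := fun j => u (some j) with hz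
  have hdu : eval u d ≠ 0 := fun h0 => hu (by rw [h0, zero_mul])
  have he0 : eval z (P (i 0)) ≠ 0 := fun h0 => hu (by rw [h0, mul_zero, mul_zero])
  have hsurj : ∀ y : Fin (q + 1) → ℂ, ∃ (a : ℂ) (v : Fin p → ℂ), ∀ j,
      y j = a * eval z (P (i j)) + ∑ k, eval z (pderiv k (P (i j))) * v k := by
    intro y
    let x : Option (Fin p) → ℂ := fun t => (∑ k, eval u (B t k) * y k) / eval u d
    refine ⟨x none, fun k => u none * x (some k), fun j => ?_⟩
    have h1 : ∑ t, eval u (pderiv t (coneP P (i j))) * x t = y j := by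
      have h2 : ∀ t, eval u (pderiv t (coneP P (i j))) * x t =
          (∑ k, eval u (pderiv t (coneP P (i j)) * B t k) * y k) / eval u d := by
        intro t
        simp only [x, map_mul]
        rw [← mul_div_assoc, Finset.mul_sum]
        congr 1
        exact Finset.sum_congr rfl fun k _ => by ring
      rw [Finset.sum_congr rfl fun t _ => h2 t, ← Finset.sum_div, Finset.sum_comm,
        div_eq_iff hdu]
      have h3 : ∀ k, ∑ t, eval u (pderiv t (coneP P (i j)) * B t k) * y k =
          (if j = k then eval u d * y k else 0) := by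
        intro k
        rw [← Finset.sum_mul, ← map_sum, hB j k]
        by_cases hjk : j = k
        · simp [hjk]
        · simp [hjk]
      rw [Finset.sum_congr rfl fun k _ => h3 k, Finset.sum_ite_eq Finset.univ j,
        if_pos (Finset.mem_univ j), mul_comm]
    rw [← h1, Fintype.sum_option, eval_pderiv_coneP_none, mul_comm (eval z (P (i j)))]
    congr 1
    refine Finset.sum_congr rfl fun k _ => ?_
    rw [eval_pderiv_coneP_some]
    ring
  choose a v hav using fun k : Fin q => hsurj (Pi.single k.succ 1)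
  refine ⟨z, v, ?_⟩
  rw [Fintype.linearIndependent_iff]
  intro g hg
  have h4 : ∀ j, g 0 * eval z (P (i j)) + ∑ k : Fin q, g k.succ *
      ((Pi.single k.succ 1 : Fin (q + 1) → ℂ) j - a k * eval z (P (i j))) = 0 := by
    intro j
    have h5 := congrFun hg (i j)
    rw [Finset.sum_apply, Fin.sum_univ_succ] at h5
    simp only [Pi.smul_apply, smul_eq_mul, Fin.cons_zero, Fin.cons_succ, Pi.zero_apply,
      fderiv_mv] at h5
    rw [← h5]
    congr 1
    refine Finset.sum_congr rfl fun k _ => ?_
    rw [hav k j]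
    ring
  have h6 : g 0 = ∑ k : Fin q, g k.succ * a k := by
    have h7 := h4 0
    have h8 : ∀ k : Fin q, g k.succ * ((Pi.single k.succ 1 : Fin (q + 1) → ℂ) 0 -
        a k * eval z (P (i 0))) = - (g k.succ * a k * eval z (P (i 0))) := by
      intro k
      rw [Pi.single_eq_of_ne (Fin.succ_ne_zero k).symm]
      ring
    rw [Finset.sum_congr rfl fun k _ => h8 k, Finset.sum_neg_distrib, ← Finset.sum_mul,
      ← sub_eq_add_neg, ← sub_mul] at h7
    have h9 := (mul_eq_zero.1 h7).resolve_right he0
    exact sub_eq_zero.1 h9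
  have h10 : ∀ l : Fin q, g l.succ = 0 := by
    intro l
    have h7 := h4 l.succ
    have h8 : ∀ k : Fin q, g k.succ * ((Pi.single k.succ 1 : Fin (q + 1) → ℂ) l.succ -
        a k * eval z (P (i l.succ))) = (if l = k then g k.succ else 0) -
        g k.succ * a k * eval z (P (i l.succ)) := by
      intro k
      by_cases hlk : l = k
      · subst hlk; simp; ring
      · rw [Pi.single_eq_of_ne (fun h => hlk (Fin.succ_injective _ h)), if_neg hlk]; ring
    rw [Finset.sum_congr rfl fun k _ => h8 k, Finset.sum_sub_distrib, ← Finset.sum_mul, ← h6,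
      Finset.sum_ite_eq Finset.univ l, if_pos (Finset.mem_univ l)] at h7
    linear_combination h7
  intro m
  refine Fin.cases ?_ (fun l => h10 l) m
  rw [h6]
  exact Finset.sum_eq_zero fun k _ => by rw [h10 k, zero_mul]

/-- Restriction to an affine subspace. -/
theorem restrict_rk {P : σ → MvPolynomial (Fin p) ℂ} {z : Fin p → ℂ} (h : Rk (mv P) z q) :
    ∃ Q : σ → MvPolynomial (Fin q) ℂ, (∀ u, ∃ y, mv Q u = mv P y) ∧ Rk (mv Q) 0 q := by
  classical
  obtain ⟨v, hv⟩ := h
  let ψ : Fin p → MvPolynomial (Fin q) ℂ := fun m => C (z m) + ∑ k, C (v k m) * X k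
  have hψ : ∀ (G : MvPolynomial (Fin p) ℂ) (u : Fin q → ℂ),
      eval u (aeval ψ G) = eval (fun m => z m + ∑ k, v k m * u k) G := by
    intro G u
    induction G using MvPolynomial.induction_on with
    | C a => simp
    | add f g hf hg => simp only [map_add, hf, hg]
    | mul_X f m hf =>
      rw [map_mul, map_mul, hf, aeval_X, map_mul, eval_X]
      simp [ψ]
  have hψ0 : ∀ G : MvPolynomial (Fin p) ℂ, eval 0 (aeval ψ G) = eval z G := by
    intro G
    rw [hψ]
    simp
  have hd : ∀ k m, pderiv k (ψ m) = C (v k m) := by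
    intro k m
    simp only [ψ, map_add, pderiv_C, zero_add, map_sum]
    rw [Finset.sum_eq_single k]
    · rw [pderiv_C_mul, pderiv_X_self, mul_one]
    · intro b _ hb
      rw [pderiv_C_mul, pderiv_X_of_ne (fun h => hb h), mul_zero]
    · simp
  refine ⟨fun i => aeval ψ (P i), fun u => ⟨fun m => z m + ∑ k, v k m * u k, ?_⟩,
    fun k => Pi.single k 1, ?_⟩
  · funext i
    exact hψ (P i) u
  · have h1 : mv (fun i => aeval ψ (P i)) 0 = mv P z := funext fun i => hψ0 (P i)
    have h2 : ∀ k, fderiv ℂ (mv fun i => aeval ψ (P i)) 0 (Pi.single k 1) =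
        fderiv ℂ (mv P) z (v k) := by
      intro k
      funext i
      rw [fderiv_mv, fderiv_mv]
      rw [Finset.sum_eq_single k (fun b _ hb => by rw [Pi.single_eq_of_ne hb, mul_zero])
        (fun h => absurd (Finset.mem_univ k) h), Pi.single_eq_same, mul_one]
      have h3 := jd_chain ψ k (P i)
      rw [h3, map_sum]
      refine Finset.sum_congr rfl fun m _ => ?_
      rw [map_mul, hψ0, hd, eval_C]
    rw [h1]
    simp only [h2]
    exact hv

/-- A homomorphism from a domain of transcendence degree at most `m` is injective, if the images of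
some `m` elements are algebraically independent. -/
theorem injective_of_indep {A B : Type} [CommRing A] [IsDomain A] [Algebra ℂ A] [CommRing B]
    [Algebra ℂ B] {m : ℕ} (hA : Algebra.trdeg ℂ A ≤ (m : Cardinal)) (f : A →ₐ[ℂ] B)
    (a : Fin m → A) (h : AlgebraicIndependent ℂ fun j => f (a j)) : Function.Injective f := by
  have ha : AlgebraicIndependent ℂ a := AlgebraicIndependent.of_comp f h
  have htb : IsTranscendenceBasis ℂ a :=
    ha.isTranscendenceBasis_of_trdeg_le_of_finite (by simpa using hA)
  have halg := htb.isAlgebraic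
  rw [injective_iff_map_eq_zero]
  intro y hy
  by_contra hy0
  obtain ⟨r, hr0, s, hs⟩ := (halg.isAlgebraic y).exists_nonzero_dvd
    (mem_nonZeroDivisors_of_ne_zero hy0)
  apply hr0
  have hr : (r : A) ∈ (aeval a : MvPolynomial (Fin m) ℂ →ₐ[ℂ] A).range := by
    rw [← Algebra.adjoin_range_eq_range_aeval]
    exact r.2
  obtain ⟨R, hR⟩ := hr
  have h1 : f r.1 = 0 := by
    have h2 : (r.1 : A) = y * s := hs
    rw [h2, map_mul, hy, zero_mul]
  have h3 : aeval (fun j => f (a j)) R = 0 := by
    rw [← h1, ← hR]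
    exact (MvPolynomial.comp_aeval_apply a f R).symm
  have h4 : R = 0 := by
    rw [algebraicIndependent_iff] at h
    exact h R h3
  apply Subtype.ext
  rw [← hR, h4]
  simp

/-- On forms. -/
theorem cone_form (P : σ → MvPolynomial (Fin p) ℂ) {G : MvPolynomial σ ℂ} {d : ℕ}
    (hG : G.IsHomogeneous d) : aeval (coneP P) G = X none ^ d * rename some (aeval P G) := by
  rw [aeval_def, aeval_def, eval₂_eq', eval₂_eq', map_sum, Finset.mul_sum]
  refine Finset.sum_congr rfl fun m hm => ?_
  have hd : ∑ i, m i = d := by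
    have h1 := hG (mem_support_iff.1 hm)
    rw [← h1, Finsupp.weight_apply, Finsupp.sum_fintype _ _ (by simp)]
    simp
  simp only [coneP, mul_pow, Finset.prod_mul_distrib, Finset.prod_pow_eq_pow_sum, hd, map_mul,
    map_prod, map_pow, MvPolynomial.algebraMap_eq, rename_C]
  ring

theorem cone_zero_iff (P : σ → MvPolynomial (Fin p) ℂ) (F : MvPolynomial σ ℂ) :
    aeval (coneP P) F = 0 ↔ ∀ d, aeval P (homogeneousComponent d F) = 0 := by
  have h0 : aeval (coneP P) F = ∑ d ∈ Finset.range (F.totalDegree + 1),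
      X none ^ d * rename some (aeval P (homogeneousComponent d F)) := by
    conv_lhs => rw [← sum_homogeneousComponent F]
    rw [map_sum]
    exact Finset.sum_congr rfl fun d _ => cone_form P (homogeneousComponent_isHomogeneous d F)
  have h1 : optionEquivLeft ℂ (Fin p) (aeval (coneP P) F) = ∑ d ∈ Finset.range (F.totalDegree + 1),
      Polynomial.C (aeval P (homogeneousComponent d F)) * Polynomial.X ^ d := by
    rw [h0, map_sum]
    refine Finset.sum_congr rfl fun d _ => ?_
    rw [map_mul, map_pow, optionEquivLeft_X_none, mul_comm]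
    congr 1
    generalize aeval P (homogeneousComponent d F) = H
    induction H using MvPolynomial.induction_on with
    | C a => simp [optionEquivLeft_C]
    | add f g hf hg => simp only [map_add, hf, hg]
    | mul_X f i hf => rw [map_mul, map_mul, hf, rename_X, optionEquivLeft_X_some, map_mul]
  have h2 : ∀ e, (optionEquivLeft ℂ (Fin p) (aeval (coneP P) F)).coeff e =
      if e ∈ Finset.range (F.totalDegree + 1) then aeval P (homogeneousComponent e F) else 0 := by
    intro e
    rw [h1, Polynomial.finset_sum_coeff]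
    simp only [Polynomial.coeff_C_mul, Polynomial.coeff_X_pow, mul_ite, mul_one, mul_zero]
    rw [Finset.sum_ite_eq]
  constructor
  · intro h e
    have h3 := h2 e
    rw [h, map_zero, Polynomial.coeff_zero] at h3
    by_cases he : e ∈ Finset.range (F.totalDegree + 1)
    · rw [if_pos he] at h3
      exact h3.symm
    · rw [homogeneousComponent_eq_zero e F (by simpa using he), map_zero]
  · intro h
    rw [h0]
    exact Finset.sum_eq_zero fun d _ => by rw [h d, map_zero, mul_zero]

/-- The homogeneous ideal of the closure of the image of the map to the projective space given by the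
polynomials `P i`. -/
noncomputable def imIdeal (P : σ → MvPolynomial (Fin p) ℂ) : Ideal (MvPolynomial σ ℂ) :=
  RingHom.ker (aeval (coneP P) : MvPolynomial σ ℂ →ₐ[ℂ] MvPolynomial (Option (Fin p)) ℂ)

instance (P : σ → MvPolynomial (Fin p) ℂ) : (imIdeal P).IsPrime := RingHom.ker_isPrime _

theorem mem_imIdeal (P : σ → MvPolynomial (Fin p) ℂ) (F : MvPolynomial σ ℂ) :
    F ∈ imIdeal P ↔ ∀ d, aeval P (homogeneousComponent d F) = 0 := by
  rw [← cone_zero_iff]
  exact RingHom.mem_ker

theorem form_mem_imIdeal (P : σ → MvPolynomial (Fin p) ℂ) {G : MvPolynomial σ ℂ} {d : ℕ}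
    (hG : G.IsHomogeneous d) : G ∈ imIdeal P ↔ aeval P G = 0 := by
  have h1 : G ∈ imIdeal P ↔ aeval (coneP P) G = 0 := RingHom.mem_ker
  rw [h1, cone_form P hG]
  constructor
  · intro h
    have h2 := (mul_eq_zero.1 h).resolve_left (pow_ne_zero _ (X_ne_zero _))
    exact rename_injective _ (Option.some_injective _) (by rw [h2, map_zero])
  · intro h
    rw [h, map_zero, mul_zero]

/-- The embedding of the coordinate ring of the image. -/
noncomputable def imHom (P : σ → MvPolynomial (Fin p) ℂ) :
    (MvPolynomial σ ℂ ⧸ imIdeal P) →ₐ[ℂ] MvPolynomial (Option (Fin p)) ℂ :=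
  Ideal.Quotient.liftₐ (imIdeal P) (aeval (coneP P)) fun a ha => RingHom.mem_ker.1 ha

theorem imHom_mk (P : σ → MvPolynomial (Fin p) ℂ) (F : MvPolynomial σ ℂ) :
    imHom P (Ideal.Quotient.mk (imIdeal P) F) = aeval (coneP P) F := rfl

theorem imHom_inj (P : σ → MvPolynomial (Fin p) ℂ) : Function.Injective (imHom P) := by
  rw [injective_iff_map_eq_zero]
  intro a ha
  obtain ⟨F, rfl⟩ := Ideal.Quotient.mk_surjective a
  rw [Ideal.Quotient.eq_zero_iff_mem]
  exact RingHom.mem_ker.2 ha

/-- A point of rank `e` gives an image of dimension at least `e`. -/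
theorem trdeg_of_rk {P : σ → MvPolynomial (Fin p) ℂ} {z : Fin p → ℂ} {e : ℕ} (h : Rk (mv P) z e) :
    ((e + 1 : ℕ) : Cardinal) ≤ Algebra.trdeg ℂ (MvPolynomial σ ℂ ⧸ imIdeal P) := by
  obtain ⟨g, hg⟩ := indep_of_rk h
  have h1 : AlgebraicIndependent ℂ fun m : Fin (e + 1) =>
      imHom P (Ideal.Quotient.mk (imIdeal P) (∑ i, C (g m i) * X i)) := by
    have h2 : (fun m : Fin (e + 1) => imHom P (Ideal.Quotient.mk (imIdeal P)
        (∑ i, C (g m i) * X i))) = fun m => ∑ i, C (g m i) * coneP P i := by
      funext m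
      rw [imHom_mk, map_sum]
      refine Finset.sum_congr rfl fun i _ => ?_
      rw [map_mul, aeval_X, aeval_C, MvPolynomial.algebraMap_eq]
    rw [h2]
    exact hg
  have h3 : AlgebraicIndependent ℂ fun m : Fin (e + 1) =>
      Ideal.Quotient.mk (imIdeal P) (∑ i, C (g m i) * X i) :=
    AlgebraicIndependent.of_comp (imHom P) h1
  have h4 := h3.cardinalMk_le_trdeg
  simpa using h4

/-- An image of dimension at least `e` gives a point of rank `e`. -/
theorem rk_of_trdeg {P : σ → MvPolynomial (Fin p) ℂ} {e : ℕ}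
    (h : ((e + 1 : ℕ) : Cardinal) ≤ Algebra.trdeg ℂ (MvPolynomial σ ℂ ⧸ imIdeal P)) :
    ∃ z, Rk (mv P) z e := by
  let A := MvPolynomial σ ℂ ⧸ imIdeal P
  let s : Set A := Set.range fun i => Ideal.Quotient.mk (imIdeal P) (X i)
  have hs : Algebra.adjoin ℂ s = ⊤ := by
    rw [eq_top_iff]
    intro a _
    obtain ⟨F, rfl⟩ := Ideal.Quotient.mk_surjective a
    rw [Algebra.adjoin_range_eq_range_aeval]
    refine ⟨F, ?_⟩
    have h1 := MvPolynomial.comp_aeval_apply (R := ℂ) (X : σ → MvPolynomial σ ℂ)
      (Ideal.Quotient.mkₐ ℂ (imIdeal P)) F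
    rw [aeval_X_left_apply] at h1
    exact h1.symm
  have halg : Algebra.IsAlgebraic (Algebra.adjoin ℂ s) A := by
    refine ⟨fun a => ?_⟩
    have : a = algebraMap (Algebra.adjoin ℂ s) A ⟨a, hs ▸ Algebra.mem_top⟩ := rfl
    rw [this]
    exact isAlgebraic_algebraMap _
  obtain ⟨t, hts, ht⟩ := exists_isTranscendenceBasis_subset (R := ℂ) s
  have hc : ((e + 1 : ℕ) : Cardinal) ≤ #t := by
    rw [ht.cardinalMk_eq_trdeg]
    exact h
  have hc2 : #(Fin (e + 1)) ≤ #t := by simpa using hc
  obtain ⟨k⟩ := (Cardinal.le_def _ _).1 hc2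
  choose i hi using fun j : Fin (e + 1) => hts (k j).2
  refine rk_of_indep i ?_
  have h2 : AlgebraicIndependent ℂ fun j : Fin (e + 1) => ((k j : t) : A) :=
    ht.1.comp k k.injective
  have h3 := h2.map' (imHom_inj P)
  have h4 : (imHom P ∘ fun j : Fin (e + 1) => ((k j : t) : A)) = fun j => coneP P (i j) := by
    funext j
    simp only [Function.comp_apply]
    rw [← hi j]
    change imHom P (Ideal.Quotient.mk (imIdeal P) (X (i j))) = _
    rw [imHom_mk, aeval_X]
  rwa [h4] at h3

end Pool.Agent.U578.UR
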