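import Mathlib

/-!
The Jacobian criterion in characteristic zero: algebraically independent polynomials have at some point
a Jacobian matrix of maximal rank.
-/

set_option autoImplicit false

namespace Pool.Agent.U578.UR

open MvPolynomial TensorProduct

theorem derivation_eq_sum {τ : Type} [Fintype τ] {N : Type*} [AddCommGroup N] [Module ℂ N]
    [Module (MvPolynomial τ ℂ) N]
    (δ : Derivation ℂ (MvPolynomial τ ℂ) N) (f : MvPolynomial τ ℂ) :
    δ f = ∑ k : τ, (pderiv k f : MvPolynomial τ ℂ) • δ (X k) := by
  classical
  induction f using MvPolynomial.induction_on with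
  | C a => simp
  | add p q hp hq => simp only [map_add, hp, hq, add_smul, Finset.sum_add_distrib]
  | mul_X p i hp =>
    rw [Derivation.leibniz, hp, Finset.smul_sum]
    have h1 : ∀ k : τ, (pderiv k (p * X i) : MvPolynomial τ ℂ) • δ (X k) =
        (X i : MvPolynomial τ ℂ) • ((pderiv k p : MvPolynomial τ ℂ) • δ (X k)) +
          (if k = i then p • δ (X i) else 0) := by
      intro k
      rw [pderiv_mul, pderiv_X, add_smul, mul_comm, mul_smul]
      congr 1
      by_cases h : k = i
      · subst h; simp
      · rw [if_neg h, Pi.single_eq_of_ne (Ne.symm h)]; simp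
    rw [Finset.sum_congr rfl fun k _ => h1 k, Finset.sum_add_distrib, Finset.sum_ite_eq',
      if_pos (Finset.mem_univ i), add_comm]

/-- The Jacobian rows of algebraically independent polynomials (characteristic zero) are linearly
independent over the fraction field. -/
theorem jacobian_rows {n : ℕ} {τ : Type} [Fintype τ] (x : Fin n → MvPolynomial τ ℂ)
    (hx : AlgebraicIndependent ℂ x) (c : Fin n → FractionRing (MvPolynomial τ ℂ))
    (hc : ∀ k : τ, ∑ i, c i * algebraMap _ (FractionRing (MvPolynomial τ ℂ))
      (pderiv k (x i)) = 0) : c = 0 := by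
  let A := MvPolynomial (Fin n) ℂ
  let B := MvPolynomial τ ℂ
  let L := FractionRing B
  let K := FractionRing A
  let φ : A →ₐ[ℂ] L := (IsScalarTower.toAlgHom ℂ B L).comp (aeval x)
  have hφ : Function.Injective φ := by
    intro a b hab
    exact hx (IsFractionRing.injective B L hab)
  let _ : Algebra A L := φ.toRingHom.toAlgebra
  have hst1 : IsScalarTower ℂ A L := IsScalarTower.of_algebraMap_eq fun r => (φ.commutes r).symm
  let ψ : K →+* L := IsFractionRing.lift (g := φ.toRingHom) hφ
  let _ : Algebra K L := ψ.toAlgebra
  have hst2 : IsScalarTower A K L := IsScalarTower.of_algebraMap_eq fun a => by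
    exact (IsFractionRing.lift_algebraMap hφ a).symm
  have hst3 : IsScalarTower ℂ K L := by
    refine IsScalarTower.of_algebraMap_eq fun r => ?_
    rw [IsScalarTower.algebraMap_apply ℂ A L, IsScalarTower.algebraMap_apply A K L,
      ← IsScalarTower.algebraMap_apply ℂ A K]
  have hch : CharZero K := charZero_of_injective_algebraMap (algebraMap ℂ K).injective
  have hfs1 : Algebra.FormallySmooth A K := Algebra.FormallySmooth.of_isLocalization (nonZeroDivisors A)
  have hess : Algebra.EssFiniteType ℂ L := by
    have h1 : Algebra.EssFiniteType B L := Algebra.EssFiniteType.of_isLocalization L (nonZeroDivisors B)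
    exact Algebra.EssFiniteType.comp ℂ B L
  have hess2 : Algebra.EssFiniteType K L := Algebra.EssFiniteType.of_comp ℂ K L
  have hfs2 : Algebra.FormallySmooth K L := inferInstance
  have hfs3 : Algebra.FormallySmooth A L := Algebra.FormallySmooth.comp A K L
  have hinj : Function.Injective (KaehlerDifferential.mapBaseChange ℂ A L) := by
    rw [injective_iff_map_eq_zero]
    intro ξ hξ
    obtain ⟨η, hη⟩ := (Algebra.H1Cotangent.exact_δ_mapBaseChange ℂ A L ξ).mp hξ
    rw [← hη, Subsingleton.elim η 0, map_zero]
  let bas := (KaehlerDifferential.mvPolynomialBasis ℂ (Fin n)).baseChange L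
  have hbas : ∀ i, bas i = 1 ⊗ₜ[A] KaehlerDifferential.D ℂ A (X i) := by
    intro i
    simp only [bas, Module.Basis.baseChange_apply, KaehlerDifferential.mvPolynomialBasis_apply]
    rfl
  have hD : ∀ f : B, KaehlerDifferential.D ℂ L (algebraMap B L f) =
      ∑ k, algebraMap B L (pderiv k f) • KaehlerDifferential.D ℂ L (algebraMap B L (X k)) := by
    intro f
    have h1 := derivation_eq_sum ((KaehlerDifferential.D ℂ L).compAlgebraMap B) f
    have h2 : ∀ g, ((KaehlerDifferential.D ℂ L).compAlgebraMap B) g =
      KaehlerDifferential.D ℂ L (algebraMap B L g) := fun g => rfl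
    simp only [h2] at h1
    rw [h1]
    refine Finset.sum_congr rfl fun k _ => ?_
    rw [algebraMap_smul]
  have hξ : KaehlerDifferential.mapBaseChange ℂ A L (∑ i, c i • bas i) = 0 := by
    rw [map_sum]
    have h1 : ∀ i, KaehlerDifferential.mapBaseChange ℂ A L (c i • bas i) =
        ∑ k, (c i * algebraMap B L (pderiv k (x i))) •
          KaehlerDifferential.D ℂ L (algebraMap B L (X k)) := by
      intro i
      rw [map_smul, hbas, KaehlerDifferential.mapBaseChange_tmul, one_smul,
        KaehlerDifferential.map_D]
      have h2 : algebraMap A L (X i) = algebraMap B L (x i) := by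
        change algebraMap B L (aeval x (X i)) = _
        rw [aeval_X]
      rw [h2, hD, Finset.smul_sum]
      refine Finset.sum_congr rfl fun k _ => ?_
      rw [mul_smul]
    rw [Finset.sum_congr rfl fun i _ => h1 i, Finset.sum_comm]
    refine Finset.sum_eq_zero fun k _ => ?_
    rw [← Finset.sum_smul, hc k, zero_smul]
  have h0 : ∑ i, c i • bas i = 0 := hinj (by rw [hξ, map_zero])
  have hli := bas.linearIndependent
  rw [Fintype.linearIndependent_iff] at hli
  funext i
  exact hli c h0 i

/-- A right inverse of the Jacobian matrix, up to a nonzero polynomial. -/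
theorem jacobian_inverse {n : ℕ} {τ : Type} [Fintype τ] (x : Fin n → MvPolynomial τ ℂ)
    (hx : AlgebraicIndependent ℂ x) : ∃ (d : MvPolynomial τ ℂ) (B : τ → Fin n → MvPolynomial τ ℂ),
      d ≠ 0 ∧ ∀ i k, ∑ t, pderiv t (x i) * B t k = if i = k then d else 0 := by
  classical
  let R := MvPolynomial τ ℂ
  let L := FractionRing R
  let M : Fin n → τ → L := fun i t => algebraMap R L (pderiv t (x i))
  have hli : LinearIndependent L M := by
    rw [Fintype.linearIndependent_iff]
    intro g hg
    have h1 := jacobian_rows x hx g (fun k => by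
      have h2 := congrFun hg k
      simpa [M, Finset.sum_apply] using h2)
    exact fun i => congrFun h1 i
  let T : (Fin n → L) →ₗ[L] (τ → L) := Fintype.linearCombination L M
  have hT : Function.Injective T := by
    have h1 := hli
    rw [Fintype.linearIndependent_iff] at h1
    rw [← LinearMap.ker_eq_bot, LinearMap.ker_eq_bot']
    intro g hg
    funext i
    exact h1 g (by simpa [T, Fintype.linearCombination_apply] using hg) i
  obtain ⟨g, hg⟩ := T.exists_leftInverse_of_injective (LinearMap.ker_eq_bot.2 hT)
  have hgM : ∀ i k, ∑ t, M i t * g (Pi.single t 1) k = if i = k then 1 else 0 := by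
    intro i k
    have h1 : g (M i) = Pi.single i 1 := by
      have h2 := LinearMap.congr_fun hg (Pi.single i 1)
      simp only [LinearMap.comp_apply, LinearMap.id_apply] at h2
      rw [← h2]
      congr 1
      simp [T, Fintype.linearCombination_apply_single]
    have h3 : M i = ∑ t, M i t • (Pi.single t (1 : L) : τ → L) := by
      funext t
      simp [Finset.sum_apply, Pi.single_apply]
    have h4 : g (M i) = ∑ t, M i t • g (Pi.single t (1 : L)) := by
      conv_lhs => rw [h3]
      rw [map_sum]
      exact Finset.sum_congr rfl fun t _ => by rw [map_smul]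
    have h5 := congrFun (h4.symm.trans h1) k
    rw [Finset.sum_apply] at h5
    simp only [Pi.smul_apply, smul_eq_mul, Pi.single_apply] at h5
    rw [h5]
    by_cases h : i = k
    · subst h; simp
    · rw [if_neg h, if_neg (Ne.symm h)]
  obtain ⟨b, hb⟩ := IsLocalization.exist_integer_multiples_of_finite (nonZeroDivisors R)
    (fun s : τ × Fin n => g (Pi.single s.1 1) s.2)
  choose B hB using hb
  refine ⟨b, fun t k => B (t, k), nonZeroDivisors.coe_ne_zero b, fun i k => ?_⟩
  apply IsFractionRing.injective R L
  rw [map_sum]
  have h6 : ∀ t, algebraMap R L (pderiv t (x i) * B (t, k)) =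
      algebraMap R L b * (M i t * g (Pi.single t 1) k) := by
    intro t
    rw [map_mul, hB (t, k), Algebra.smul_def]
    simp only [M]
    ring
  rw [Finset.sum_congr rfl fun t _ => h6 t, ← Finset.mul_sum, hgM]
  by_cases h : i = k
  · rw [if_pos h, if_pos h, mul_one]
  · rw [if_neg h, if_neg h, mul_zero, map_zero]

end Pool.Agent.U578.UR
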