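import Pool.Agent.R871.SG.MvB

/-!
Entire maps of slow growth with conditions at points, and one growth function for countably many
conditions.
-/

set_option autoImplicit false

namespace Pool.Agent.U578.UR

open Filter Topology Metric Set MvPolynomial
open Pool.Agent.R871.SG

/-- Countably many growth functions. -/
theorem grows_diag (φ : ℕ → ℝ → ℝ) (h : ∀ k, Grows (φ k)) :
    ∃ ψ : ℝ → ℝ, Grows ψ ∧ ∀ k, ∃ R : ℝ, ∀ r, R ≤ r → ψ r ≤ φ k r := by
  have h1 : ∀ k : ℕ, ∃ R : ℝ, 1 < R ∧ ∀ r, R ≤ r → ∀ j ≤ k, (k : ℝ) * Real.log r ≤ φ j r := by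
    intro k
    have h2 : ∀ j, ∃ R : ℝ, ∀ r, R ≤ r → (k : ℝ) * Real.log r ≤ φ j r := by
      intro j
      have h3 : ∀ᶠ r in atTop, (k : ℝ) ≤ φ j r / Real.log r := (h j).eventually_ge_atTop _
      have h4 : ∀ᶠ r in atTop, (k : ℝ) * Real.log r ≤ φ j r := by
        filter_upwards [h3, eventually_gt_atTop (1 : ℝ)] with r h5 h6
        rwa [le_div_iff₀ (Real.log_pos h6)] at h5
      exact eventually_atTop.1 h4
    choose R hR using h2
    refine ⟨2 + ∑ j ∈ Finset.range (k + 1), |R j|, ?_, fun r hr j hj => hR j r ?_⟩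
    · have : 0 ≤ ∑ j ∈ Finset.range (k + 1), |R j| := Finset.sum_nonneg fun _ _ => abs_nonneg _
      linarith
    · have h5 : |R j| ≤ ∑ j ∈ Finset.range (k + 1), |R j| :=
        Finset.single_le_sum (f := fun j => |R j|) (fun _ _ => abs_nonneg _)
          (Finset.mem_range.2 (Nat.lt_succ_of_le hj))
      linarith [le_abs_self (R j)]
  choose R hR1 hR using h1
  -- a strictly increasing unbounded sequence of radii
  let S : ℕ → ℝ := fun k => (k : ℝ) + ∑ j ∈ Finset.range (k + 1), R j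
  have hRS : ∀ k, R k ≤ S k := by
    intro k
    have h5 : R k ≤ ∑ j ∈ Finset.range (k + 1), R j :=
      Finset.single_le_sum (f := R) (fun j _ => (by linarith [hR1 j] : 0 ≤ R j))
        (Finset.mem_range.2 (Nat.lt_succ_self k))
    have : (0 : ℝ) ≤ k := k.cast_nonneg
    simp only [S]
    linarith
  have hmono : Monotone S := by
    refine monotone_nat_of_le_succ fun k => ?_
    simp only [S]
    rw [Finset.sum_range_succ _ (k + 1)]
    push_cast
    linarith [hR1 (k + 1)]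
  have hkS : ∀ k : ℕ, (k : ℝ) ≤ S k := by
    intro k
    have h5 : 0 ≤ ∑ j ∈ Finset.range (k + 1), R j :=
      Finset.sum_nonneg fun j _ => by linarith [hR1 j]
    simp only [S]
    linarith
  -- the number of the last radius below `r`
  let N : ℝ → ℕ := fun r => sSup {k : ℕ | S k ≤ r}
  have hbdd : ∀ r, BddAbove {k : ℕ | S k ≤ r} := by
    intro r
    obtain ⟨m, hm⟩ := exists_nat_ge r
    refine ⟨m, fun k hk => ?_⟩
    have h5 : (k : ℝ) ≤ m := (hkS k).trans (le_trans hk hm)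
    exact_mod_cast h5
  have hN : ∀ r, S 0 ≤ r → S (N r) ≤ r := by
    intro r hr
    exact Nat.sSup_mem (s := {k : ℕ | S k ≤ r}) ⟨0, hr⟩ (hbdd r)
  have hNge : ∀ (k : ℕ) r, S k ≤ r → k ≤ N r := fun k r hr => le_csSup (hbdd r) hr
  refine ⟨fun r => (N r : ℝ) * Real.log r, ?_, fun k => ⟨S k, fun r hr => ?_⟩⟩
  · have h6 : Tendsto (fun r => (N r : ℝ)) atTop atTop := by
      rw [Filter.tendsto_atTop]
      intro b
      obtain ⟨m, hm⟩ := exists_nat_ge b
      filter_upwards [eventually_ge_atTop (S m)] with r hr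
      exact hm.trans (by exact_mod_cast hNge m r hr)
    refine h6.congr' ?_
    filter_upwards [eventually_gt_atTop (1 : ℝ)] with r hr
    rw [mul_div_assoc, div_self (Real.log_pos hr).ne', mul_one]
  · have h7 : S 0 ≤ r := (hmono (Nat.zero_le k)).trans hr
    exact hR (N r) r ((hRS _).trans (hN r h7)) k (hNge k r hr)

variable {p : ℕ} {σ : Type} [Fintype σ] {ι : Type}

theorem slowM_mono {E : Type} [NormedAddCommGroup E] {φ ψ : ℝ → ℝ}
    (h : ∃ R : ℝ, ∀ r, R ≤ r → ψ r ≤ φ r) {f : (Fin p → ℂ) → E} (hf : SlowM ψ f) : SlowM φ f := by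
  obtain ⟨R, hR⟩ := h
  intro R'
  obtain ⟨r, hr, hz⟩ := hf (max R R')
  exact ⟨r, (le_max_right _ _).trans_lt hr, fun z hz2 =>
    (hz z hz2).trans (hR r ((le_max_left _ _).trans hr.le))⟩

/-- **Entire maps of slow growth with conditions at points are limits of polynomial maps with the same
conditions.** -/
theorem approx_K (p : ℕ) (F : ι → MvPolynomial σ ℂ) (K : (Fin p → ℂ) → Set (σ → ℂ))
    (hK : ∀ z, IsClosed (K z)) : ∃ φ : ℝ → ℝ, Grows φ ∧
    ∀ f : (Fin p → ℂ) → σ → ℂ, AnalyticOnNhd ℂ f univ → (∀ z i, eval (f z) (F i) = 0) →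
      (∀ z, ‖z‖ ≤ 2 → f z ∈ K z) →
      SlowM φ f → ∀ ρ η : ℝ, 0 ≤ ρ → 0 < η → ∃ P : σ → MvPolynomial (Fin p) ℂ,
        (∀ z i, eval (mv P z) (F i) = 0) ∧ (∀ z, ‖z‖ ≤ 2 → mv P z ∈ K z) ∧
        ∀ z, ‖z‖ ≤ ρ → ‖mv P z - f z‖ ≤ η := by
  set e : closedBall (0 : Fin p → ℂ) 2 → (Fin p → ℕ) → ℂ := fun z α => mon z.1 α with he
  obtain ⟨δ, hδ, hap⟩ := approx_gen (E := σ → ℂ) (fun α : Fin p → ℕ => ord α) (ord_fin p)
    (ord_summable p) (fun _ => univ) (fun _ => isClosed_univ) e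
    (fun t α => mon_le (mem_closedBall_zero_iff.1 t.2) α)
    (fun t => {x | ∀ i, eval x (F i) = 0} ∩ K t.1) (fun t => by
      have : {x : σ → ℂ | ∀ i, eval x (F i) = 0} = ⋂ i, {x | eval x (F i) = 0} := by
        ext x; simp
      rw [this]
      exact (isClosed_iInter fun i => isClosed_eq (cont_ev (F i)) continuous_const).inter
        (hK t.1))
  obtain ⟨φ, hφ, hgr⟩ := growthM δ hδ
  refine ⟨φ, hφ, fun f hf hfF hfK hs ρ η hρ hη => ?_⟩
  obtain ⟨c, hc1, hc2⟩ := expansion p f hf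
  have hcb : ∀ r : ℝ, 0 < r → ∃ C, ∀ α, ‖c α‖ ≤ C / r ^ ord α := by
    intro r hr
    have hcont : Continuous f := continuous_iff_continuousAt.2 fun y =>
      (hf y (mem_univ y)).continuousAt
    obtain ⟨C, hC⟩ := (isCompact_closedBall (0 : Fin p → ℂ) r).exists_bound_of_continuousOn
      hcont.continuousOn
    exact ⟨C, hc2 r C hr fun y hy => hC y (by simpa using hy)⟩
  obtain ⟨c', D, hc'0, -, hc'C, hc's, hc'η⟩ := hap c (fun _ => mem_univ _) (fun t => by
      have h1 : ∑' α, e t α • c α = f t := (hc1 t.1).tsum_eq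
      rw [h1]
      exact ⟨fun i => hfF _ i, hfK _ (mem_closedBall_zero_iff.1 t.2)⟩)
    (fun A hA => cauchy_summable hcb hA)
    (fun D₀ => hgr f c hc2 hs 4 D₀ (by norm_num)) ρ η hρ hη
  refine ⟨mpol c' D, fun z i => ?_, fun z hz => ?_, fun z hz => ?_⟩
  · -- along the line through the origin
    have h1 : ∀ y : Fin p → ℂ, ‖y‖ ≤ 2 → eval (mv (mpol c' D) y) (F i) = 0 := by
      intro y hy
      have h2 := (hc'C ⟨y, by simpa using hy⟩).1 i
      have h3 : ∑' α, e ⟨y, by simpa using hy⟩ α • c' α = mv (mpol c' D) y :=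
        (mpol_eval hc'0 y).tsum_eq
      rwa [h3] at h2
    have h4 : Differentiable ℂ fun t : ℂ => mv (mpol c' D) (t • z) := by
      intro t
      have h5 : DifferentiableAt ℂ (fun t : ℂ => t • z) t := by fun_prop
      exact ((mv_analytic (mpol c' D)) _ (mem_univ _)).differentiableAt.comp t h5
    have h6 := zero_ball (h := fun t => eval (mv (mpol c' D) (t • z)) (F i)) (diff_ev h4 (F i))
      (w := 0) (r := 1 / (‖z‖ + 1)) (by positivity) (fun t ht => h1 _ (by
        rw [sub_zero] at ht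
        rw [norm_smul]
        have h7 : ‖t‖ * (‖z‖ + 1) < 1 := by
          rwa [lt_div_iff₀ (by positivity)] at ht
        nlinarith [norm_nonneg t])) 1
    simpa using h6
  · have h2 := (hc'C ⟨z, by simpa using hz⟩).2
    have h3 : ∑' α, e ⟨z, by simpa using hz⟩ α • c' α = mv (mpol c' D) z :=
      (mpol_eval hc'0 z).tsum_eq
    rwa [h3] at h2
  · have h1 := (mpol_eval hc'0 z).sub (hc1 z)
    have hb : ∀ α, ‖mon z α • c' α - mon z α • c α‖ ≤ ρ ^ ord α * ‖c' α - c α‖ := by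
      intro α
      rw [← smul_sub, norm_smul]
      exact mul_le_mul_of_nonneg_right (mon_le hz α) (norm_nonneg _)
    exact (h1.tsum_eq ▸ tsum_of_norm_bounded hc's.hasSum hb).trans hc'η

end Pool.Agent.U578.UR
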