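import Pool.Agent.U578.UR.Dom
import Pool.Agent.U578.UR.Pts

/-!
Unirational and rationally connected projective varieties over the complex numbers, and entire maps of
slow growth.
-/

set_option autoImplicit false

namespace Pool.Agent.U578.UR

open Filter Topology Metric Set MvPolynomial Cardinal
open Pool.Agent.R871.SG (mv Rk mv_analytic mv_slow Grows SlowM Slow rank_iff)

variable {n : ℕ}

/-- `I` is the homogeneous ideal of an irreducible projective variety of dimension `q` in `ℙⁿ`. -/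
structure IsVariety (I : Ideal (MvPolynomial (Fin (n + 1)) ℂ)) (q : ℕ) : Prop where
  prime : I.IsPrime
  homog : ∀ G ∈ I, ∀ d, homogeneousComponent d G ∈ I
  dim : Algebra.trdeg ℂ (MvPolynomial (Fin (n + 1)) ℂ ⧸ I) = ((q + 1 : ℕ) : Cardinal)

/-- The vectors of homogeneous coordinates of the points of the variety with the ideal `I`, and the
zero vector. -/
def Cone (I : Ideal (MvPolynomial (Fin (n + 1)) ℂ)) : Set (Fin (n + 1) → ℂ) :=
  {x | ∀ G ∈ I, eval x G = 0}

/-- There is a dominant rational map from an affine space to the variety `X` with the ideal `I`, given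
by polynomials `P i` as homogeneous coordinates: the forms which vanish at `P` are those which vanish on
`X`. -/
def Unirational (I : Ideal (MvPolynomial (Fin (n + 1)) ℂ)) : Prop :=
  ∃ (p : ℕ) (P : Fin (n + 1) → MvPolynomial (Fin p) ℂ),
    ∀ (d : ℕ) (G : MvPolynomial (Fin (n + 1)) ℂ), G.IsHomogeneous d → (aeval P G = 0 ↔ G ∈ I)

/-- `X` contains a unirational subvariety of dimension at least `e`: the closure of the image of a
rational map from an affine space to `X`, given by polynomials `P i`. The ideal `imIdeal P` is the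
homogeneous ideal of this closure. -/
def ContainsUnirational (I : Ideal (MvPolynomial (Fin (n + 1)) ℂ)) (e : ℕ) : Prop :=
  ∃ (p : ℕ) (P : Fin (n + 1) → MvPolynomial (Fin p) ℂ), (∀ G ∈ I, aeval P G = 0) ∧
    ((e + 1 : ℕ) : Cardinal) ≤ Algebra.trdeg ℂ (MvPolynomial (Fin (n + 1)) ℂ ⧸ imIdeal P)

/-- There is a holomorphic map from `ℂᵖ` to `X`, given by entire functions as homogeneous coordinates,
whose growth is at most `φ` for arbitrarily large radii, and which has rank at least `e` at some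
point. -/
def SlowMap (φ : ℝ → ℝ) (I : Ideal (MvPolynomial (Fin (n + 1)) ℂ)) (p e : ℕ) : Prop :=
  ∃ f : (Fin p → ℂ) → Fin (n + 1) → ℂ, AnalyticOnNhd ℂ f univ ∧ (∀ z, f z ∈ Cone I) ∧
    SlowM φ f ∧ ∃ z, Rk f z e

theorem cone_iff {p : ℕ} (I : Ideal (MvPolynomial (Fin (n + 1)) ℂ))
    (P : Fin (n + 1) → MvPolynomial (Fin p) ℂ) :
    (∀ G ∈ I, aeval P G = 0) ↔ ∀ z, mv P z ∈ Cone I := by
  have h1 : ∀ (G : MvPolynomial (Fin (n + 1)) ℂ) z, eval z (aeval P G) = eval (mv P z) G := by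
    intro G z
    induction G using MvPolynomial.induction_on with
    | C a => simp
    | add f g hf hg => simp only [map_add, hf, hg]
    | mul_X f m hf =>
      rw [map_mul, map_mul, hf, aeval_X, map_mul, eval_X]
      rfl
  constructor
  · intro h z G hG
    rw [← h1, h G hG, map_zero]
  · intro h G hG
    refine MvPolynomial.funext fun z => ?_
    rw [h1, map_zero]
    exact h z G hG

/-- `X` is unirational iff it contains a unirational subvariety of the dimension of `X`. -/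
theorem unirational_iff {I : Ideal (MvPolynomial (Fin (n + 1)) ℂ)} {q : ℕ} (hI : IsVariety I q) :
    Unirational I ↔ ContainsUnirational I q := by
  have hpr := hI.prime
  constructor
  · rintro ⟨p, P, hP⟩
    have hmem : ∀ G, G ∈ imIdeal P ↔ G ∈ I := by
      intro G
      rw [mem_imIdeal]
      constructor
      · intro h
        rw [← sum_homogeneousComponent G]
        exact Ideal.sum_mem _ fun d _ =>
          (hP d _ (homogeneousComponent_isHomogeneous d G)).1 (h d)
      · intro h d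
        exact (hP d _ (homogeneousComponent_isHomogeneous d G)).2 (hI.homog G h d)
    have hIm : imIdeal P = I := Ideal.ext hmem
    refine ⟨p, P, fun G hG => ?_, ?_⟩
    · rw [← sum_homogeneousComponent G, map_sum]
      exact Finset.sum_eq_zero fun d _ =>
        (hP d _ (homogeneousComponent_isHomogeneous d G)).2 (hI.homog G hG d)
    · rw [hIm, hI.dim]
  · rintro ⟨p, P, hP, htr⟩
    obtain ⟨z, hz⟩ := rk_of_trdeg htr
    have hle : I ≤ imIdeal P := by
      intro G hG
      rw [mem_imIdeal]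
      exact fun d => hP _ (hI.homog G hG d)
    obtain ⟨g, hg⟩ := indep_of_rk hz
    let f : (MvPolynomial (Fin (n + 1)) ℂ ⧸ I) →ₐ[ℂ] MvPolynomial (Option (Fin p)) ℂ :=
      Ideal.Quotient.liftₐ I (aeval (coneP P)) fun a ha => RingHom.mem_ker.1 (hle ha)
    have hfm : ∀ F, f (Ideal.Quotient.mk I F) = aeval (coneP P) F := fun F => rfl
    have hinj : Function.Injective f := by
      refine injective_of_indep hI.dim.le f
        (fun m => Ideal.Quotient.mk I (∑ i, C (g m i) * X i)) ?_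
      have h2 : (fun m : Fin (q + 1) => f (Ideal.Quotient.mk I (∑ i, C (g m i) * X i))) =
          fun m => ∑ i, C (g m i) * coneP P i := by
        funext m
        rw [hfm, map_sum]
        refine Finset.sum_congr rfl fun i _ => ?_
        rw [map_mul, aeval_X, aeval_C, MvPolynomial.algebraMap_eq]
      rw [h2]
      exact hg
    refine ⟨p, P, fun d G hG => ?_⟩
    rw [← form_mem_imIdeal P hG]
    refine ⟨fun h => ?_, fun h => hle h⟩
    have h3 : f (Ideal.Quotient.mk I G) = 0 := by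
      rw [hfm]
      exact RingHom.mem_ker.1 h
    exact Ideal.Quotient.eq_zero_iff_mem.1 ((injective_iff_map_eq_zero f).1 hinj _ h3)

/-- **One growth function for countably many varieties.** -/
theorem slow_iff (m : ℕ → ℕ) (I : ∀ j, Ideal (MvPolynomial (Fin (m j + 1)) ℂ)) :
    ∃ φ : ℝ → ℝ, Grows φ ∧ ∀ j e, (ContainsUnirational (I j) e ↔ SlowMap φ (I j) e e) ∧
      (ContainsUnirational (I j) e ↔ ∃ p, SlowMap φ (I j) p e) := by
  have h1 : ∀ k : ℕ, ∃ φ : ℝ → ℝ, Grows φ ∧ ∀ q : ℕ,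
      (∃ P : Fin (m k.unpair.1 + 1) → MvPolynomial (Fin k.unpair.2) ℂ,
        (∀ z (i : I k.unpair.1), eval (mv P z) i.1 = 0) ∧ ∃ z, Rk (mv P) z q) ↔
      ∃ f : (Fin k.unpair.2 → ℂ) → Fin (m k.unpair.1 + 1) → ℂ, AnalyticOnNhd ℂ f univ ∧
        (∀ z (i : I k.unpair.1), eval (f z) i.1 = 0) ∧ SlowM φ f ∧ ∃ z, Rk f z q :=
    fun k => rank_iff k.unpair.2 fun i : I k.unpair.1 => i.1
  choose φ hφ hr using h1
  obtain ⟨ψ, hψ, hle⟩ := grows_diag φ hφ
  have hback : ∀ j p e, SlowMap ψ (I j) p e → ContainsUnirational (I j) e := by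
    intro j p e hs
    have hk := hr (Nat.pair j p)
    have hl := hle (Nat.pair j p)
    rw [Nat.unpair_pair] at hk
    obtain ⟨f, hf, hfI, hsl, z, hz⟩ := hs
    obtain ⟨P, hP, y, hy⟩ := (hk e).2 ⟨f, hf, fun z i => hfI z i.1 i.2, slowM_mono hl hsl, z, hz⟩
    refine ⟨p, P, (cone_iff _ P).2 fun z G hG => hP z ⟨G, hG⟩, trdeg_of_rk hy⟩
  have hforw : ∀ j e, ContainsUnirational (I j) e → SlowMap ψ (I j) e e := by
    rintro j e ⟨p, P, hP, htr⟩
    obtain ⟨z, hz⟩ := rk_of_trdeg htr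
    obtain ⟨Q, hQ, hrk⟩ := restrict_rk hz
    refine ⟨mv Q, mv_analytic Q, fun u => ?_, mv_slow hψ Q, 0, hrk⟩
    obtain ⟨y, hy⟩ := hQ u
    rw [hy]
    exact (cone_iff _ P).1 hP y
  exact ⟨ψ, hψ, fun j e => ⟨⟨hforw j e, hback j e e⟩,
    ⟨fun h => ⟨e, hforw j e h⟩, fun ⟨p, h⟩ => hback j p e h⟩⟩⟩

/-! ### Two points -/

/-- The points with the homogeneous coordinates `x` and `y` are on a rational curve in `X`, or equal:
the values at `0` and `1` of a map from the projective line to `X`, given by polynomials. -/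
def JoinedByRationalCurve (I : Ideal (MvPolynomial (Fin (n + 1)) ℂ)) (x y : Fin (n + 1) → ℂ) : Prop :=
  ∃ P : Fin (n + 1) → Polynomial ℂ, (∀ t, (fun i => (P i).eval t) ∈ Cone I) ∧
    (∃ a : ℂ, a ≠ 0 ∧ (fun i => (P i).eval 0) = a • x) ∧
    ∃ b : ℂ, b ≠ 0 ∧ (fun i => (P i).eval 1) = b • y

/-- The same for an entire curve, given by entire functions as homogeneous coordinates, whose growth is
at most `φ` for arbitrarily large radii. -/
def JoinedByEntireCurve (φ : ℝ → ℝ) (I : Ideal (MvPolynomial (Fin (n + 1)) ℂ))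
    (x y : Fin (n + 1) → ℂ) : Prop :=
  ∃ f : ℂ → Fin (n + 1) → ℂ, Differentiable ℂ f ∧ (∀ t, f t ∈ Cone I) ∧ Slow φ f ∧
    (∃ a : ℂ, a ≠ 0 ∧ f 0 = a • x) ∧ ∃ b : ℂ, b ≠ 0 ∧ f 1 = b • y

theorem eval_toMv (P : Polynomial ℂ) (z : Fin 1 → ℂ) :
    eval z (Polynomial.aeval (X 0 : MvPolynomial (Fin 1) ℂ) P) = P.eval (z 0) := by
  induction P using Polynomial.induction_on' with
  | add f g hf hg => simp only [map_add, Polynomial.eval_add, hf, hg]
  | monomial k a => simp [Polynomial.aeval_monomial, MvPolynomial.algebraMap_eq]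

theorem eval_ofMv (P : MvPolynomial (Fin 1) ℂ) (t : ℂ) :
    (aeval (fun _ => (Polynomial.X : Polynomial ℂ)) P).eval t = eval (fun _ => t) P := by
  induction P using MvPolynomial.induction_on with
  | C a => simp
  | add f g hf hg => simp only [map_add, Polynomial.eval_add, hf, hg]
  | mul_X f m hf => simp [hf]

theorem entire_of_rational {I : Ideal (MvPolynomial (Fin (n + 1)) ℂ)} {x y : Fin (n + 1) → ℂ}
    (h : JoinedByRationalCurve I x y) {φ : ℝ → ℝ} (hφ : Grows φ) : JoinedByEntireCurve φ I x y := by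
  obtain ⟨P, hP, hx, hy⟩ := h
  refine ⟨fun t i => (P i).eval t, differentiable_pi.2 fun i => (P i).differentiable, hP, ?_,
    hx, hy⟩
  intro R
  obtain ⟨r, hr, hz⟩ := mv_slow hφ
    (fun i => Polynomial.aeval (X 0 : MvPolynomial (Fin 1) ℂ) (P i)) R
  refine ⟨r, hr, fun z hz2 => ?_⟩
  have h1 := hz (fun _ => z) (by rwa [pi_norm_const])
  have h2 : mv (fun i => Polynomial.aeval (X 0 : MvPolynomial (Fin 1) ℂ) (P i)) (fun _ => z) =
      fun i => (P i).eval z := funext fun i => eval_toMv (P i) _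
  rwa [h2] at h1

theorem rational_of_entire (I : Ideal (MvPolynomial (Fin (n + 1)) ℂ)) (x y : Fin (n + 1) → ℂ)
    (hx : x ≠ 0) (hy : y ≠ 0) : ∃ φ : ℝ → ℝ, Grows φ ∧
      (JoinedByEntireCurve φ I x y → JoinedByRationalCurve I x y) := by
  classical
  let K : (Fin 1 → ℂ) → Set (Fin (n + 1) → ℂ) := fun z =>
    if z 0 = 0 then ((Submodule.span ℂ {x} : Submodule ℂ (Fin (n + 1) → ℂ)) : Set _)
    else if z 0 = 1 then ((Submodule.span ℂ {y} : Submodule ℂ (Fin (n + 1) → ℂ)) : Set _)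
    else univ
  have hK : ∀ z, IsClosed (K z) := by
    intro z
    simp only [K]
    split_ifs
    · exact Submodule.closed_of_finiteDimensional _
    · exact Submodule.closed_of_finiteDimensional _
    · exact isClosed_univ
  obtain ⟨φ, hφ, h⟩ := approx_K 1 (fun i : I => i.1) K hK
  refine ⟨φ, hφ, ?_⟩
  rintro ⟨f, hf, hfI, hs, ⟨a, ha, hfa⟩, b, hb, hfb⟩
  let g : (Fin 1 → ℂ) → Fin (n + 1) → ℂ := fun z => f (z 0)
  have hg : AnalyticOnNhd ℂ g univ := by
    intro z _
    have h1 : AnalyticAt ℂ (fun z : Fin 1 → ℂ => z 0) z :=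
      (ContinuousLinearMap.proj (R := ℂ) (φ := fun _ : Fin 1 => ℂ) 0).analyticAt z
    exact AnalyticAt.comp (g := f) (f := fun z : Fin 1 → ℂ => z 0) (hf.analyticAt (z 0)) h1
  have hgs : SlowM φ g := by
    intro R
    obtain ⟨r, hr, hz⟩ := hs R
    exact ⟨r, hr, fun z hz2 => hz (z 0) ((norm_le_pi_norm z 0).trans hz2)⟩
  have hf0 : 0 < ‖f 0‖ := by
    rw [hfa, norm_pos_iff]
    exact smul_ne_zero ha hx
  have hf1 : 0 < ‖f 1‖ := by
    rw [hfb, norm_pos_iff]
    exact smul_ne_zero hb hy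
  obtain ⟨P, hP, hPK, hPc⟩ := h g hg (fun z i => hfI _ i.1 i.2) (fun z _ => by
      simp only [K, g]
      split_ifs with h0 h1
      · rw [h0, hfa]
        exact Submodule.smul_mem _ _ (Submodule.mem_span_singleton_self x)
      · rw [h1, hfb]
        exact Submodule.smul_mem _ _ (Submodule.mem_span_singleton_self y)
      · trivial) hgs 1 (min (‖f 0‖) (‖f 1‖) / 2) (by norm_num) (by positivity)
  have hev : ∀ t : ℂ, (fun i => (aeval (fun _ => (Polynomial.X : Polynomial ℂ)) (P i)).eval t) =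
      mv P (fun _ => t) := fun t => funext fun i => eval_ofMv (P i) t
  refine ⟨fun i => aeval (fun _ => (Polynomial.X : Polynomial ℂ)) (P i), fun t => ?_, ?_, ?_⟩
  · rw [hev]
    exact fun G hG => hP _ ⟨G, hG⟩
  · rw [hev]
    have h1 := hPK (fun _ => 0) (by rw [pi_norm_const]; norm_num)
    have h2 := hPc (fun _ => 0) (by rw [pi_norm_const]; norm_num)
    simp only [K, if_true, g] at h1 h2
    obtain ⟨c, hc⟩ := Submodule.mem_span_singleton.1 h1
    refine ⟨c, fun hc0 => ?_, hc.symm⟩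
    rw [← hc, hc0, zero_smul, zero_sub, norm_neg] at h2
    have h3 := min_le_left (‖f 0‖) (‖f 1‖)
    linarith
  · rw [hev]
    have h1 := hPK (fun _ => 1) (by rw [pi_norm_const]; norm_num)
    have h2 := hPc (fun _ => 1) (by rw [pi_norm_const]; norm_num)
    simp only [K, one_ne_zero, if_false, if_true, g] at h1 h2
    obtain ⟨c, hc⟩ := Submodule.mem_span_singleton.1 h1
    refine ⟨c, fun hc0 => ?_, hc.symm⟩
    rw [← hc, hc0, zero_smul, zero_sub, norm_neg] at h2
    have h3 := min_le_right (‖f 0‖) (‖f 1‖)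
    linarith

theorem joined_iff (I : Ideal (MvPolynomial (Fin (n + 1)) ℂ)) (x y : Fin (n + 1) → ℂ)
    (hx : x ≠ 0) (hy : y ≠ 0) :
    JoinedByRationalCurve I x y ↔ ∀ φ : ℝ → ℝ, Grows φ → JoinedByEntireCurve φ I x y := by
  refine ⟨fun h φ hφ => entire_of_rational h hφ, fun h => ?_⟩
  obtain ⟨φ, hφ, h1⟩ := rational_of_entire I x y hx hy
  exact h1 (h φ hφ)

/-- The relation `R` holds for two general points of `X`: for all pairs of points in a nonempty open
subset `H ≠ 0` of `X × X`. -/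
def GeneralPairs (I : Ideal (MvPolynomial (Fin (n + 1)) ℂ))
    (R : (Fin (n + 1) → ℂ) → (Fin (n + 1) → ℂ) → Prop) : Prop :=
  ∃ H : MvPolynomial (Fin (n + 1) ⊕ Fin (n + 1)) ℂ,
    (∃ x ∈ Cone I, ∃ y ∈ Cone I, x ≠ 0 ∧ y ≠ 0 ∧ eval (Sum.elim x y) H ≠ 0) ∧
    ∀ x ∈ Cone I, ∀ y ∈ Cone I, x ≠ 0 → y ≠ 0 → eval (Sum.elim x y) H ≠ 0 → R x y

theorem general_iff (I : Ideal (MvPolynomial (Fin (n + 1)) ℂ)) :
    GeneralPairs I (JoinedByRationalCurve I) ↔
      GeneralPairs I fun x y => ∀ φ : ℝ → ℝ, Grows φ → JoinedByEntireCurve φ I x y := by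
  constructor
  · rintro ⟨H, h1, h2⟩
    exact ⟨H, h1, fun x hx y hy hx0 hy0 hH => (joined_iff I x y hx0 hy0).1
      (h2 x hx y hy hx0 hy0 hH)⟩
  · rintro ⟨H, h1, h2⟩
    exact ⟨H, h1, fun x hx y hy hx0 hy0 hH => (joined_iff I x y hx0 hy0).2
      (h2 x hx y hy hx0 hy0 hH)⟩

/-- Q1 over the complex numbers. -/
def Question : Prop := ∀ (n : ℕ) (I : Ideal (MvPolynomial (Fin (n + 1)) ℂ)) (q : ℕ), IsVariety I q →
  GeneralPairs I (JoinedByRationalCurve I) → Unirational I

/-- The analytic form of Q1 over the complex numbers. -/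
def AnalyticQuestion : Prop := ∀ (n : ℕ) (I : Ideal (MvPolynomial (Fin (n + 1)) ℂ)) (q : ℕ),
  IsVariety I q → (GeneralPairs I fun x y => ∀ φ : ℝ → ℝ, Grows φ → JoinedByEntireCurve φ I x y) →
    ∀ φ : ℝ → ℝ, Grows φ → SlowMap φ I q q

theorem unirational_iff_slow {I : Ideal (MvPolynomial (Fin (n + 1)) ℂ)} {q : ℕ}
    (hI : IsVariety I q) : Unirational I ↔ ∀ φ : ℝ → ℝ, Grows φ → SlowMap φ I q q := by
  rw [unirational_iff hI]
  constructor
  · rintro ⟨p, P, hP, htr⟩ ψ hψ
    obtain ⟨z, hz⟩ := rk_of_trdeg htr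
    obtain ⟨Q, hQ, hrk⟩ := restrict_rk hz
    refine ⟨mv Q, mv_analytic Q, fun u => ?_, mv_slow hψ Q, 0, hrk⟩
    obtain ⟨y, hy⟩ := hQ u
    rw [hy]
    exact (cone_iff _ P).1 hP y
  · intro h
    obtain ⟨φ, hφ, h1⟩ := slow_iff (fun _ => n) fun _ => I
    exact (h1 0 q).1.2 (h φ hφ)

theorem question_iff : Question ↔ AnalyticQuestion := by
  constructor
  · intro h n I q hI hg
    exact (unirational_iff_slow hI).1 (h n I q hI ((general_iff I).2 hg))
  · intro h n I q hI hg
    exact (unirational_iff_slow hI).2 (h n I q hI ((general_iff I).1 hg))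

end Pool.Agent.U578.UR
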