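import Pool.Agent.U578.UR.Pts

/-!
Entire maps of slow growth to the members of a family, with conditions at points: they are limits of
polynomial maps to members of the family, with the same conditions.
-/

set_option autoImplicit false

namespace Pool.Agent.U578.UR

open Filter Topology Metric Set MvPolynomial
open Pool.Agent.R871.SG

variable {κ σ : Type} [Fintype κ] [Fintype σ] {ι : Type}

theorem grows_top {φ : ℝ → ℝ} (hφ : Grows φ) (B : ℝ) : ∃ R : ℝ, ∀ r, R ≤ r → B ≤ φ r := by
  have h1 : ∀ᶠ r in atTop, |B| ≤ φ r / Real.log r := hφ.eventually_ge_atTop _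
  have h2 : ∀ᶠ r in atTop, B ≤ φ r := by
    filter_upwards [h1, eventually_ge_atTop (Real.exp 1)] with r h3 h4
    have h5 : 1 ≤ Real.log r := by
      rw [Real.le_log_iff_exp_le (lt_of_lt_of_le (Real.exp_pos 1) h4)]
      exact h4
    rw [le_div_iff₀ (by linarith)] at h3
    have h6 : |B| * 1 ≤ |B| * Real.log r := mul_le_mul_of_nonneg_left h5 (abs_nonneg B)
    linarith [le_abs_self B]
  exact eventually_atTop.1 h2

theorem norm_elim (s : κ → ℂ) (x : σ → ℂ) : ‖(Sum.elim s x : κ ⊕ σ → ℂ)‖ = max ‖s‖ ‖x‖ := by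
  refine le_antisymm ((pi_norm_le_iff_of_nonneg (by positivity)).2 fun i => ?_) (max_le ?_ ?_)
  · rcases i with i | i
    · exact (norm_le_pi_norm s i).trans (le_max_left _ _)
    · exact (norm_le_pi_norm x i).trans (le_max_right _ _)
  · exact (pi_norm_le_iff_of_nonneg (norm_nonneg _)).2 fun i =>
      norm_le_pi_norm (Sum.elim s x : κ ⊕ σ → ℂ) (Sum.inl i)
  · exact (pi_norm_le_iff_of_nonneg (norm_nonneg _)).2 fun i =>
      norm_le_pi_norm (Sum.elim s x : κ ⊕ σ → ℂ) (Sum.inr i)

theorem approx_par (p : ℕ) (F : ι → MvPolynomial (κ ⊕ σ) ℂ)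
    (K : (Fin p → ℂ) → Set (κ ⊕ σ → ℂ)) (hK : ∀ z, IsClosed (K z)) : ∃ φ : ℝ → ℝ, Grows φ ∧
    ∀ (s : κ → ℂ) (f : (Fin p → ℂ) → σ → ℂ), AnalyticOnNhd ℂ f univ →
      (∀ z i, eval (Sum.elim s (f z)) (F i) = 0) → (∀ z, ‖z‖ ≤ 2 → Sum.elim s (f z) ∈ K z) →
      SlowM φ f → ∀ ρ η : ℝ, 0 ≤ ρ → 0 < η →
      ∃ (s' : κ → ℂ) (P : σ → MvPolynomial (Fin p) ℂ),
        (∀ z i, eval (Sum.elim s' (mv P z)) (F i) = 0) ∧
        (∀ z, ‖z‖ ≤ 2 → Sum.elim s' (mv P z) ∈ K z) ∧ ∀ z, ‖z‖ ≤ ρ → ‖mv P z - f z‖ ≤ η := by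
  classical
  set e : closedBall (0 : Fin p → ℂ) 2 → (Fin p → ℕ) → ℂ := fun z α => mon z.1 α with he
  let L : (Fin p → ℕ) → Set (κ ⊕ σ → ℂ) := fun α => if α = 0 then univ else
    {x | ∀ k, x (Sum.inl k) = 0}
  have hL : ∀ α, IsClosed (L α) := by
    intro α
    simp only [L]
    split_ifs
    · exact isClosed_univ
    · have : {x : κ ⊕ σ → ℂ | ∀ k, x (Sum.inl k) = 0} = ⋂ k, {x | x (Sum.inl k) = 0} := by
        ext x; simp
      rw [this]
      exact isClosed_iInter fun k => isClosed_eq (continuous_apply _) continuous_const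
  obtain ⟨δ, hδ, hap⟩ := approx_gen (E := κ ⊕ σ → ℂ) (fun α : Fin p → ℕ => ord α) (ord_fin p)
    (ord_summable p) L hL e
    (fun t α => mon_le (mem_closedBall_zero_iff.1 t.2) α)
    (fun t => {x | ∀ i, eval x (F i) = 0} ∩ K t.1) (fun t => by
      have : {x : κ ⊕ σ → ℂ | ∀ i, eval x (F i) = 0} = ⋂ i, {x | eval x (F i) = 0} := by
        ext x; simp
      rw [this]
      exact (isClosed_iInter fun i => isClosed_eq (cont_ev (F i)) continuous_const).inter
        (hK t.1))
  obtain ⟨φ, hφ, hgr⟩ := growthM δ hδ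
  refine ⟨φ, hφ, fun s f hf hfF hfK hs ρ η hρ hη => ?_⟩
  obtain ⟨c, hc1, hc2⟩ := expansion p f hf
  let g : (Fin p → ℂ) → κ ⊕ σ → ℂ := fun z => Sum.elim s (f z)
  let b : (Fin p → ℕ) → κ ⊕ σ → ℂ := fun α => Sum.elim (if α = 0 then s else 0) (c α)
  have hb1 : ∀ z, HasSum (fun α => mon z α • b α) (g z) := by
    intro z
    rw [Pi.hasSum]
    rintro (k | j)
    · have h1 : (fun α : Fin p → ℕ => (mon z α • b α) (Sum.inl k)) =
          fun α => if α = 0 then s k else 0 := by
        funext α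
        by_cases h : α = 0
        · subst h
          simp [b, mon]
        · simp [b, h]
      rw [h1]
      exact hasSum_ite_eq 0 (s k)
    · have h1 := (Pi.hasSum.1 (hc1 z)) j
      exact h1
  have hb2 : ∀ r C : ℝ, 0 < r → (∀ z, ‖z‖ ≤ r → ‖g z‖ ≤ C) → ∀ α, ‖b α‖ ≤ C / r ^ ord α := by
    intro r C hr hC α
    have h1 : ‖c α‖ ≤ C / r ^ ord α := hc2 r C hr (fun z hz => by
      refine le_trans ?_ (hC z hz)
      simp only [g, norm_elim]
      exact le_max_right _ _) α
    simp only [b, norm_elim]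
    refine max_le ?_ h1
    by_cases h : α = 0
    · subst h
      have h2 := hC 0 (by rw [norm_zero]; exact hr.le)
      simp only [g, norm_elim] at h2
      simpa [ord] using (le_max_left _ _).trans h2
    · rw [if_neg h, norm_zero]
      exact (norm_nonneg _).trans h1
  have hgs : SlowM φ g := by
    obtain ⟨R0, hR0⟩ := grows_top hφ (Real.log ‖s‖)
    obtain ⟨R1, hR1⟩ := grows_top hφ 0
    intro R
    obtain ⟨r, hr, hz⟩ := hs (max (max R0 R1) R)
    have hr0 : R0 ≤ r := ((le_max_left _ _).trans (le_max_left _ _)).trans hr.le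
    have hr1 : R1 ≤ r := ((le_max_right _ _).trans (le_max_left _ _)).trans hr.le
    refine ⟨r, (le_max_right _ _).trans_lt hr, fun z hz2 => ?_⟩
    simp only [g, norm_elim]
    rcases le_total ‖s‖ ‖f z‖ with h | h
    · rw [max_eq_right h]
      exact hz z hz2
    · rw [max_eq_left h]
      exact hR0 r hr0
  have hcb : ∀ r : ℝ, 0 < r → ∃ C, ∀ α, ‖b α‖ ≤ C / r ^ ord α := by
    intro r hr
    have hcont : Continuous f := continuous_iff_continuousAt.2 fun y =>
      (hf y (mem_univ y)).continuousAt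
    obtain ⟨C, hC⟩ := (isCompact_closedBall (0 : Fin p → ℂ) r).exists_bound_of_continuousOn
      hcont.continuousOn
    refine ⟨max ‖s‖ C, hb2 r _ hr fun y hy => ?_⟩
    simp only [g, norm_elim]
    exact max_le_max le_rfl (hC y (by simpa using hy))
  obtain ⟨c', D, hc'0, hc'L, hc'C, hc's, hc'η⟩ := hap b (fun α => by
      simp only [L]
      split_ifs with h
      · trivial
      · intro k
        simp [b, h]) (fun t => by
      have h1 : ∑' α, e t α • b α = g t := (hb1 t.1).tsum_eq
      rw [h1]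
      exact ⟨fun i => hfF _ i, hfK _ (mem_closedBall_zero_iff.1 t.2)⟩)
    (fun A hA => cauchy_summable hcb hA)
    (fun D₀ => hgr g b hb2 hgs 4 D₀ (by norm_num)) ρ η hρ hη
  -- the parameters of the polynomial map
  let s' : κ → ℂ := fun k => c' 0 (Sum.inl k)
  let P : σ → MvPolynomial (Fin p) ℂ := fun j => mpol (fun α j => c' α (Sum.inr j)) D j
  have hP : ∀ z, HasSum (fun α => mon z α • fun j => c' α (Sum.inr j)) (mv P z) := fun z =>
    mpol_eval (fun α hα => by funext j; rw [hc'0 α hα]; rfl) z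
  have hsP : ∀ z, HasSum (fun α => mon z α • c' α) (Sum.elim s' (mv P z)) := by
    intro z
    rw [Pi.hasSum]
    rintro (k | j)
    · have h1 : (fun α : Fin p → ℕ => (mon z α • c' α) (Sum.inl k)) =
          fun α => if α = 0 then s' k else 0 := by
        funext α
        by_cases h : α = 0
        · subst h
          simp [s', mon]
        · have h2 := hc'L α
          simp only [L, if_neg h] at h2
          simp [h, h2 k]
      rw [h1]
      exact hasSum_ite_eq 0 (s' k)
    · exact (Pi.hasSum.1 (hP z)) j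
  refine ⟨s', P, fun z i => ?_, fun z hz => ?_, fun z hz => ?_⟩
  · -- along the line through the origin
    have h1 : ∀ y : Fin p → ℂ, ‖y‖ ≤ 2 → eval (Sum.elim s' (mv P y)) (F i) = 0 := by
      intro y hy
      have h2 := (hc'C ⟨y, by simpa using hy⟩).1 i
      have h3 : ∑' α, e ⟨y, by simpa using hy⟩ α • c' α = Sum.elim s' (mv P y) :=
        (hsP y).tsum_eq
      rwa [h3] at h2
    have h4 : Differentiable ℂ fun t : ℂ => (Sum.elim s' (mv P (t • z)) : κ ⊕ σ → ℂ) := by
      refine differentiable_pi.2 ?_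
      rintro (k | j)
      · exact differentiable_const _
      · have h6 : Differentiable ℂ fun t : ℂ => mv P (t • z) := by
          intro t
          have h5 : DifferentiableAt ℂ (fun t : ℂ => t • z) t := by fun_prop
          exact ((mv_analytic P) _ (mem_univ _)).differentiableAt.comp t h5
        exact differentiable_pi.1 h6 j
    have h6 := zero_ball (h := fun t => eval (Sum.elim s' (mv P (t • z))) (F i))
      (diff_ev h4 (F i))
      (w := 0) (r := 1 / (‖z‖ + 1)) (by positivity) (fun t ht => h1 _ (by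
        rw [sub_zero] at ht
        rw [norm_smul]
        have h7 : ‖t‖ * (‖z‖ + 1) < 1 := by
          rwa [lt_div_iff₀ (by positivity)] at ht
        nlinarith [norm_nonneg t])) 1
    simpa using h6
  · have h2 := (hc'C ⟨z, by simpa using hz⟩).2
    have h3 : ∑' α, e ⟨z, by simpa using hz⟩ α • c' α = Sum.elim s' (mv P z) :=
      (hsP z).tsum_eq
    rwa [h3] at h2
  · have h1 := (hP z).sub (hc1 z)
    have hb : ∀ α, ‖(mon z α • fun j => c' α (Sum.inr j)) - mon z α • c α‖ ≤
        ρ ^ ord α * ‖c' α - b α‖ := by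
      intro α
      rw [← smul_sub, norm_smul]
      refine mul_le_mul (mon_le hz α) ?_ (norm_nonneg _) (by positivity)
      refine (pi_norm_le_iff_of_nonneg (norm_nonneg _)).2 fun j => ?_
      exact norm_le_pi_norm (c' α - b α) (Sum.inr j)
    exact (h1.tsum_eq ▸ tsum_of_norm_bounded hc's.hasSum hb).trans hc'η

end Pool.Agent.U578.UR
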